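import Mathlib

/-!
The number of unions of a member of `A` with a member of `B` is at least the number of supersets of
members of `A` times the density of `B`.
-/

set_option autoImplicit false

namespace Pool.Agent.H44.Loc

open Finset

variable {α : Type*} [DecidableEq α]

/-- The subsets of `V` which contain a member of `A`. -/
def up (V : Finset α) (A : Finset (Finset α)) : Finset (Finset α) :=
  V.powerset.filter (fun S => ∃ R ∈ A, R ⊆ S)

lemma mem_up {V : Finset α} {A : Finset (Finset α)} {S : Finset α} :
    S ∈ up V A ↔ S ⊆ V ∧ ∃ R ∈ A, R ⊆ S := by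
  simp [up]

/-- The unions of a member of `A` and a member of `B`. -/
def jn (A B : Finset (Finset α)) : Finset (Finset α) := image₂ (fun R T => R ∪ T) A B

lemma mem_jn {A B : Finset (Finset α)} {S : Finset α} :
    S ∈ jn A B ↔ ∃ R ∈ A, ∃ T ∈ B, R ∪ T = S := by
  simp [jn]

/-- Members of `A` that do not contain `a`. -/
def lo (a : α) (A : Finset (Finset α)) : Finset (Finset α) := A.filter (fun S => a ∉ S)

/-- Members of `A` containing `a`, with `a` removed. -/
def hi (a : α) (A : Finset (Finset α)) : Finset (Finset α) :=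
  (A.filter (fun S => a ∈ S)).image (fun S => S.erase a)

lemma mem_lo {a : α} {A : Finset (Finset α)} {S : Finset α} : S ∈ lo a A ↔ S ∈ A ∧ a ∉ S := by
  simp [lo]

lemma mem_hi {a : α} {A : Finset (Finset α)} {S : Finset α} :
    S ∈ hi a A ↔ a ∉ S ∧ insert a S ∈ A := by
  simp only [hi, mem_image, mem_filter]
  constructor
  · rintro ⟨T, ⟨hT, haT⟩, rfl⟩
    exact ⟨notMem_erase a T, by rwa [insert_erase haT]⟩
  · rintro ⟨h1, h2⟩
    exact ⟨insert a S, ⟨h2, mem_insert_self a S⟩, erase_insert h1⟩

lemma card_lo_hi (a : α) (A : Finset (Finset α)) : A.card = (lo a A).card + (hi a A).card := by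
  unfold lo hi
  rw [card_image_of_injOn]
  · rw [add_comm]
    exact (card_filter_add_card_filter_not (s := A) (fun S => a ∈ S)).symm
  · intro S hS T hT h
    simp only [coe_filter, Set.mem_ofPred_eq] at hS hT
    have h' : insert a (S.erase a) = insert a (T.erase a) := by
      have h2 : S.erase a = T.erase a := h
      rw [h2]
    rwa [insert_erase hS.2, insert_erase hT.2] at h'

/-- **Key inequality.** -/
theorem jn_up (V : Finset α) : ∀ A B : Finset (Finset α), (∀ S ∈ A, S ⊆ V) → (∀ S ∈ B, S ⊆ V) →
    (up V A).card * B.card ≤ (jn A B).card * 2 ^ V.card := by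
  induction V using Finset.induction_on with
  | empty =>
    intro A B hA hB
    rw [card_empty, pow_zero, mul_one]
    rcases A.eq_empty_or_nonempty with rfl | ⟨R, hR⟩
    · simp [up]
    rcases B.eq_empty_or_nonempty with rfl | ⟨T, hT⟩
    · simp
    have h1 : (up ∅ A).card ≤ 1 := by
      refine (card_filter_le _ _).trans ?_
      simp
    have h2 : B.card ≤ 1 := by
      have : B ⊆ {∅} := by
        intro S hS
        rw [mem_singleton]
        exact subset_empty.mp (hB S hS)
      exact (card_le_card this).trans (by simp)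
    have h3 : 1 ≤ (jn A B).card := card_pos.mpr ⟨R ∪ T, mem_jn.mpr ⟨R, hR, T, hT, rfl⟩⟩
    calc (up ∅ A).card * B.card ≤ 1 * 1 := Nat.mul_le_mul h1 h2
      _ ≤ (jn A B).card := by simpa using h3
  | insert a V ha ih =>
    intro A B hA hB
    have sub : ∀ {C : Finset (Finset α)}, (∀ S ∈ C, S ⊆ insert a V) →
        (∀ S ∈ lo a C, S ⊆ V) ∧ (∀ S ∈ hi a C, S ⊆ V) := by
      intro C hC
      constructor
      · intro S hS x hx
        rw [mem_lo] at hS
        have := hC S hS.1 hx
        rw [mem_insert] at this
        rcases this with rfl | h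
        · exact absurd hx hS.2
        · exact h
      · intro S hS x hx
        rw [mem_hi] at hS
        have := hC _ hS.2 (mem_insert_of_mem hx)
        rw [mem_insert] at this
        rcases this with rfl | h
        · exact absurd hx hS.1
        · exact h
    obtain ⟨hA0, hA1⟩ := sub hA
    obtain ⟨hB0, hB1⟩ := sub hB
    have i1 := ih (lo a A) (lo a B ∩ hi a B) hA0 (fun S hS => hB0 S (mem_inter.mp hS).1)
    have i2 := ih (lo a A ∪ hi a A) (lo a B ∪ hi a B)
      (fun S hS => by rcases mem_union.mp hS with h | h; exacts [hA0 S h, hA1 S h])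
      (fun S hS => by rcases mem_union.mp hS with h | h; exacts [hB0 S h, hB1 S h])
    -- sections of the up set
    have u0 : lo a (up (insert a V) A) = up V (lo a A) := by
      ext S
      rw [mem_lo, mem_up, mem_up]
      constructor
      · rintro ⟨⟨h1, R, hR, hRS⟩, h2⟩
        refine ⟨?_, R, mem_lo.mpr ⟨hR, fun h => h2 (hRS h)⟩, hRS⟩
        intro x hx
        rcases mem_insert.mp (h1 hx) with rfl | h
        · exact absurd hx h2
        · exact h
      · rintro ⟨h1, R, hR, hRS⟩
        exact ⟨⟨h1.trans (subset_insert a V), R, (mem_lo.mp hR).1, hRS⟩, fun h => ha (h1 h)⟩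
    have u1 : hi a (up (insert a V) A) = up V (lo a A ∪ hi a A) := by
      ext S
      rw [mem_hi, mem_up, mem_up]
      constructor
      · rintro ⟨h2, h1, R, hR, hRS⟩
        refine ⟨?_, R.erase a, ?_, ?_⟩
        · intro x hx
          rcases mem_insert.mp (h1 (mem_insert_of_mem hx)) with rfl | h
          · exact absurd hx h2
          · exact h
        · by_cases haR : a ∈ R
          · exact mem_union_right _ (mem_hi.mpr ⟨notMem_erase a R, by rwa [insert_erase haR]⟩)
          · rw [erase_eq_of_notMem haR]
            exact mem_union_left _ (mem_lo.mpr ⟨hR, haR⟩)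
        · intro x hx
          rw [mem_erase] at hx
          rcases mem_insert.mp (hRS hx.2) with h | h
          · exact absurd h hx.1
          · exact h
      · rintro ⟨h1, R, hR, hRS⟩
        refine ⟨fun h => ha (h1 h), insert_subset_insert a h1, ?_⟩
        rcases mem_union.mp hR with h | h
        · exact ⟨R, (mem_lo.mp h).1, hRS.trans (subset_insert a S)⟩
        · exact ⟨insert a R, (mem_hi.mp h).2, insert_subset_insert a hRS⟩
    -- sections of the join
    have j0 : lo a (jn A B) = jn (lo a A) (lo a B) := by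
      ext S
      rw [mem_lo, mem_jn, mem_jn]
      constructor
      · rintro ⟨⟨R, hR, T, hT, rfl⟩, h⟩
        rw [mem_union, not_or] at h
        exact ⟨R, mem_lo.mpr ⟨hR, h.1⟩, T, mem_lo.mpr ⟨hT, h.2⟩, rfl⟩
      · rintro ⟨R, hR, T, hT, rfl⟩
        rw [mem_lo] at hR hT
        exact ⟨⟨R, hR.1, T, hT.1, rfl⟩, by rw [mem_union, not_or]; exact ⟨hR.2, hT.2⟩⟩
    have j1 : jn (lo a A) (hi a B) ∪ jn (hi a A) (lo a B ∪ hi a B) ⊆ hi a (jn A B) := by
      intro S hS
      rw [mem_hi, mem_jn]
      rcases mem_union.mp hS with h | h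
      · obtain ⟨R, hR, T, hT, rfl⟩ := mem_jn.mp h
        rw [mem_lo] at hR
        rw [mem_hi] at hT
        refine ⟨by rw [mem_union, not_or]; exact ⟨hR.2, hT.1⟩, R, hR.1, insert a T, hT.2, ?_⟩
        rw [union_insert]
      · obtain ⟨R, hR, T, hT, rfl⟩ := mem_jn.mp h
        rw [mem_hi] at hR
        rcases mem_union.mp hT with hT | hT
        · rw [mem_lo] at hT
          refine ⟨by rw [mem_union, not_or]; exact ⟨hR.1, hT.2⟩, insert a R, hR.2, T, hT.1, ?_⟩
          rw [insert_union]
        · rw [mem_hi] at hT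
          refine ⟨by rw [mem_union, not_or]; exact ⟨hR.1, hT.1⟩, insert a R, hR.2, insert a T,
            hT.2, ?_⟩
          rw [insert_union, union_insert, insert_idem]
    -- counting
    have c1 : (jn (lo a A) (lo a B ∩ hi a B)).card +
        (jn (lo a A ∪ hi a A) (lo a B ∪ hi a B)).card ≤ (jn A B).card := by
      rw [card_lo_hi a (jn A B), j0, ← card_inter_add_card_union (jn (lo a A) (lo a B))
        (hi a (jn A B))]
      apply Nat.add_le_add
      · apply card_le_card
        intro S hS
        obtain ⟨R, hR, T, hT, rfl⟩ := mem_jn.mp hS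
        rw [mem_inter] at hT
        rw [mem_inter]
        exact ⟨mem_jn.mpr ⟨R, hR, T, hT.1, rfl⟩,
          j1 (mem_union_left _ (mem_jn.mpr ⟨R, hR, T, hT.2, rfl⟩))⟩
      · apply card_le_card
        intro S hS
        obtain ⟨R, hR, T, hT, rfl⟩ := mem_jn.mp hS
        rw [mem_union]
        rcases mem_union.mp hR with hR | hR
        · rcases mem_union.mp hT with hT | hT
          · exact Or.inl (mem_jn.mpr ⟨R, hR, T, hT, rfl⟩)
          · exact Or.inr (j1 (mem_union_left _ (mem_jn.mpr ⟨R, hR, T, hT, rfl⟩)))
        · exact Or.inr (j1 (mem_union_right _ (mem_jn.mpr ⟨R, hR, T, hT, rfl⟩)))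
    have c2 : (up V (lo a A)).card ≤ (up V (lo a A ∪ hi a A)).card := by
      apply card_le_card
      intro S hS
      rw [mem_up] at hS ⊢
      obtain ⟨h1, R, hR, h2⟩ := hS
      exact ⟨h1, R, mem_union_left _ hR, h2⟩
    have c3 : (lo a B ∩ hi a B).card ≤ (lo a B ∪ hi a B).card :=
      card_le_card (inter_subset_left.trans subset_union_left)
    have c4 : B.card = (lo a B ∩ hi a B).card + (lo a B ∪ hi a B).card := by
      rw [card_inter_add_card_union, ← card_lo_hi]
    have c5 : (up (insert a V) A).card = (up V (lo a A)).card + (up V (lo a A ∪ hi a A)).card := by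
      rw [card_lo_hi a (up (insert a V) A), u0, u1]
    rw [card_insert_of_notMem ha, pow_succ, c4, c5]
    set p0 := (up V (lo a A)).card
    set p1 := (up V (lo a A ∪ hi a A)).card
    set q0 := (lo a B ∩ hi a B).card
    set q1 := (lo a B ∪ hi a B).card
    set r0 := (jn (lo a A) (lo a B ∩ hi a B)).card
    set r1 := (jn (lo a A ∪ hi a A) (lo a B ∪ hi a B)).card
    set N := 2 ^ V.card
    have h1 : (p0 + p1) * (q0 + q1) ≤ 2 * (p0 * q0 + p1 * q1) := by
      obtain ⟨d, hd⟩ := Nat.exists_eq_add_of_le c2
      obtain ⟨e, he⟩ := Nat.exists_eq_add_of_le c3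
      rw [hd, he]
      nlinarith [Nat.zero_le (d * e)]
    have h2 : (r0 + r1) * N ≤ (jn A B).card * N := Nat.mul_le_mul_right N c1
    nlinarith

end Pool.Agent.H44.Loc
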