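import Pool.Agent.H25.Dense
import Pool.Agent.H44.JoinUp

/-!
Edge isoperimetry with the Takagi function, and the local inequality: if a union-closed family `F`
of subsets of `V` is closed under unions with the members of a family `G` that contains at least
two thirds of the subsets of `V`, then the members of `F` have average size at least `|V| / 2`.
-/

set_option autoImplicit false
set_option linter.unusedSectionVars false

namespace Pool.Agent.H44.Loc

open Finset Pool.Agent.H67.Cube Pool.Agent.H25

variable {α : Type*} [DecidableEq α]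

/-- Values of the Takagi function at dyadic points. -/
lemma tak_dyadic (n : ℕ) : ∀ N : ℕ, n ≤ N → ∀ m : ℤ, 0 ≤ m →
    (3 * ((m : ℝ) / 2 ^ n) ≤ 1 → 2 * ((m : ℝ) / 2 ^ n) ≤ tak N ((m : ℝ) / 2 ^ n)) ∧
    (3 * ((m : ℝ) / 2 ^ n) ≤ 2 → (m : ℝ) / 2 ^ n ≤ tak N ((m : ℝ) / 2 ^ n)) := by
  induction n with
  | zero =>
    intro N _ m hm
    have key : (3 : ℝ) * m < 3 → m = 0 := by
      intro h
      have h1 : (m : ℝ) < 1 := by linarith
      have h2 : m < 1 := by exact_mod_cast h1
      omega
    rw [pow_zero, div_one]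
    constructor
    · intro h
      have := key (by linarith)
      subst this
      simpa using tak_nonneg N 0
    · intro h
      have := key (by linarith)
      subst this
      simpa using tak_nonneg N 0
  | succ n ih =>
    intro N hN m hm
    obtain ⟨N', rfl⟩ : ∃ N', N = N' + 1 := ⟨N - 1, by omega⟩
    have hN' : n ≤ N' := by omega
    have hp : (0 : ℝ) < 2 ^ n := by positivity
    set x : ℝ := (m : ℝ) / 2 ^ (n + 1) with hx
    have hx0 : 0 ≤ x := by
      have : (0 : ℝ) ≤ m := by exact_mod_cast hm
      positivity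
    have h2x : 2 * x = (m : ℝ) / 2 ^ n := by
      rw [hx, pow_succ]
      field_simp
    constructor
    · intro h
      rw [tak_succ_of_le N' hx0 (by linarith)]
      have := (ih N' hN' m hm).2
      rw [← h2x] at this
      have := this (by linarith)
      linarith
    · intro h
      rcases le_or_gt x (1 / 2) with h1 | h1
      · rw [tak_succ_of_le N' hx0 h1]
        have := tak_nonneg N' (2 * x)
        linarith
      · rw [← tak_one_sub, tak_succ_of_le N' (by linarith) (by linarith)]
        have e1 : 2 * (1 - x) = 1 - ((m - 2 ^ n : ℤ) : ℝ) / 2 ^ n := by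
          push_cast
          rw [sub_div, ← h2x, div_self hp.ne']
          ring
        have e2 : ((m - 2 ^ n : ℤ) : ℝ) / 2 ^ n = 2 * x - 1 := by
          push_cast
          rw [sub_div, ← h2x, div_self hp.ne']
        have hm' : 0 ≤ m - 2 ^ n := by
          have h3 : (0 : ℝ) < ((m - 2 ^ n : ℤ) : ℝ) / 2 ^ n := by rw [e2]; linarith
          have h4 : (0 : ℝ) < ((m - 2 ^ n : ℤ) : ℝ) := by
            by_contra hcon
            push Not at hcon
            have := div_nonpos_of_nonpos_of_nonneg hcon hp.le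
            linarith
          have : (0 : ℤ) < m - 2 ^ n := by exact_mod_cast h4
          omega
        have h5 := (ih N' hN' (m - 2 ^ n) hm').1
        rw [e1, tak_one_sub]
        rw [e2] at h5 ⊢
        have := h5 (by linarith)
        linarith

/-- **Edge isoperimetric inequality** with the Takagi function. -/
theorem iso (N : ℕ) (U : Finset α) (f : Finset α → ℝ) (hf : ∀ X ⊆ U, f X = 0 ∨ f X = 1) :
    2 ^ U.card * tak N (T U f / 2 ^ U.card) ≤ E U f := by
  induction U using Finset.induction_on generalizing f with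
  | empty =>
    have h1 : T (∅ : Finset α) f = f ∅ := by simp [T]
    rw [h1, card_empty, pow_zero, div_one, one_mul]
    have h0 : tak N 0 = 0 := tak_of_zero N
    rcases hf ∅ (Subset.refl _) with e | e
    · rw [e, h0]; simp [E]
    · rw [e]
      have := tak_add_int N 0 1
      push_cast at this
      rw [zero_add] at this
      rw [this, h0]
      simp [E]
  | insert a U ha ih =>
    have hsub : ∀ X ⊆ U, X ⊆ insert a U := fun X hX => hX.trans (subset_insert _ _)
    have hsub2 : ∀ X ⊆ U, insert a X ⊆ insert a U := fun X hX => insert_subset_insert a hX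
    have i0 := ih f (fun X hX => hf X (hsub X hX))
    have i1 := ih (fun X => f (insert a X)) (fun X hX => hf _ (hsub2 X hX))
    set P : ℝ := 2 ^ U.card with hP
    have hPpos : 0 < P := by positivity
    set t0 := T U f with ht0
    set t1 := T U (fun X => f (insert a X)) with ht1
    have h1 : |t1 - t0| ≤ T U (fun X => (f (insert a X) - f X) ^ 2) := by
      rw [ht0, ht1, ← T_sub]
      unfold T
      refine (abs_sum_le_sum_abs _ _).trans (sum_le_sum ?_)
      intro X hX
      have hX' := mem_powerset.mp hX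
      rcases hf X (hsub X hX') with e1 | e1 <;> rcases hf _ (hsub2 X hX') with e2 | e2 <;>
        rw [e1, e2] <;> norm_num
    rw [E_insert ha, T_insert ha, card_insert_of_notMem ha, pow_succ, ← hP, ← ht0, ← ht1]
    have h2 := tak_mid N (t1 / P) (t0 / P)
    have h3 : s ((t1 / P - t0 / P) / 2) ≤ |t1 - t0| / (2 * P) := by
      refine (s_le _ 0).trans (le_of_eq ?_)
      rw [Int.cast_zero, sub_zero, ← sub_div, div_div, abs_div, abs_of_pos (a := P * 2) (by positivity),
        mul_comm P 2]
    have h4 : (t0 + t1) / (P * 2) = (t1 / P + t0 / P) / 2 := by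
      field_simp
      ring
    rw [h4]
    have h5 : P * 2 * tak N ((t1 / P + t0 / P) / 2) ≤
        P * 2 * ((tak N (t1 / P) + tak N (t0 / P)) / 2 + |t1 - t0| / (2 * P)) := by
      apply mul_le_mul_of_nonneg_left _ (by positivity)
      linarith
    have h6 : P * 2 * ((tak N (t1 / P) + tak N (t0 / P)) / 2 + |t1 - t0| / (2 * P)) =
        P * tak N (t1 / P) + P * tak N (t0 / P) + |t1 - t0| := by
      field_simp
    linarith

/-- Sum of the boundary parts. -/
def bsum (V : Finset α) (F : Finset (Finset α)) : ℕ := ∑ i ∈ V, (bd F V i).card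

lemma card_biUnion_bd {V : Finset α} {F : Finset (Finset α)}
    (huc : ∀ X ∈ F, ∀ Y ∈ F, X ∪ Y ∈ F) :
    (V.biUnion (fun i => bd F V i)).card = bsum V F := by
  unfold bsum
  apply card_biUnion
  intro i _ j _ hij
  rw [Function.onFun, disjoint_left]
  intro B hB hB'
  rw [mem_bd] at hB hB'
  apply hB.2.2.1
  have h := huc _ hB.2.2.2 _ hB'.2.2.2
  have e : B.erase i ∪ B.erase j = B := by
    ext x
    simp only [mem_union, mem_erase]
    constructor
    · rintro (⟨_, h1⟩ | ⟨_, h1⟩) <;> exact h1
    · intro h1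
      by_cases hx : x = i
      · exact Or.inr ⟨fun e => hij (hx.symm.trans e), h1⟩
      · exact Or.inl ⟨hx, h1⟩
  rwa [e] at h

/-- The quantity that measures the average size. -/
lemma excess_eq {V : Finset α} {F : Finset (Finset α)} (hF : ∀ S ∈ F, S ⊆ V) :
    ∑ x ∈ V, (2 * ((F.filter (fun S => x ∈ S)).card : ℝ) - F.card) =
      E V (ind F) - 2 * bsum V F := by
  have h := E_ind_eq F V
  have h1 : ∑ x ∈ V, L V (ind F) x =
      - ∑ x ∈ V, (2 * ((F.filter (fun S => x ∈ S)).card : ℝ) - F.card) := by
    rw [← sum_neg_distrib]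
    apply sum_congr rfl
    intro x hx
    rw [L_ind F V hF hx]
    ring
  rw [h1] at h
  unfold bsum
  linarith

lemma iso_large {V : Finset α} {F : Finset (Finset α)} (hF : ∀ S ∈ F, S ⊆ V)
    (h : 2 * 2 ^ V.card ≤ 3 * F.card) : 2 * ((2 : ℝ) ^ V.card - F.card) ≤ E V (ind F) := by
  have hcard : F.card ≤ 2 ^ V.card := by
    rw [← card_powerset]
    exact card_le_card fun S hS => mem_powerset.mpr (hF S hS)
  have h1 := iso V.card V (ind F) (fun X _ => by unfold ind; split_ifs <;> simp)
  rw [T_ind F V hF] at h1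
  set P : ℝ := 2 ^ V.card with hP
  have hPpos : 0 < P := by positivity
  have hreal : 2 * P ≤ 3 * (F.card : ℝ) := by rw [hP]; exact_mod_cast h
  have h2 := (tak_dyadic V.card V.card le_rfl ((2 ^ V.card - F.card : ℤ)) (by
    have : (F.card : ℤ) ≤ 2 ^ V.card := by exact_mod_cast hcard
    omega)).1
  push_cast at h2
  rw [← hP] at h2
  have h3 : 3 * ((P - F.card) / P) ≤ 1 := by
    rw [← mul_div_assoc, div_le_one hPpos]
    linarith
  have h4 := h2 h3
  have h5 : P * (2 * ((P - F.card) / P)) = 2 * (P - F.card) := by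
    field_simp
  have h6 := mul_le_mul_of_nonneg_left h4 hPpos.le
  linarith

lemma iso_small {V : Finset α} {F : Finset (Finset α)} (hF : ∀ S ∈ F, S ⊆ V)
    (h : 3 * F.card ≤ 2 * 2 ^ V.card) : (F.card : ℝ) ≤ E V (ind F) := by
  have h1 := iso V.card V (ind F) (fun X _ => by unfold ind; split_ifs <;> simp)
  rw [T_ind F V hF] at h1
  set P : ℝ := 2 ^ V.card with hP
  have hPpos : 0 < P := by positivity
  have hreal : 3 * (F.card : ℝ) ≤ 2 * P := by rw [hP]; exact_mod_cast h
  have h2 := (tak_dyadic V.card V.card le_rfl (F.card : ℤ) (by positivity)).2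
  push_cast at h2
  rw [← hP] at h2
  have h3 : 3 * ((F.card : ℝ) / P) ≤ 2 := by
    rw [← mul_div_assoc, div_le_iff₀ hPpos]
    linarith
  have h4 := h2 h3
  have h5 : (P - F.card) / P = 1 - (F.card : ℝ) / P := by
    rw [sub_div, div_self hPpos.ne']
  rw [h5, tak_one_sub] at h1
  have h6 := mul_le_mul_of_nonneg_left h4 hPpos.le
  have h7 : P * ((F.card : ℝ) / P) = F.card := by field_simp
  linarith

/-- **Local inequality.** -/
theorem local_nonneg {V : Finset α} {G F : Finset (Finset α)} (hG : ∀ S ∈ G, S ⊆ V)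
    (hF : ∀ S ∈ F, S ⊆ V) (huc : ∀ X ∈ F, ∀ Y ∈ F, X ∪ Y ∈ F)
    (hGF : ∀ R ∈ F, ∀ T ∈ G, R ∪ T ∈ F) (hbig : 2 * 2 ^ V.card ≤ 3 * G.card) :
    0 ≤ ∑ x ∈ V, (2 * ((F.filter (fun S => x ∈ S)).card : ℝ) - F.card) := by
  rw [excess_eq hF]
  have hsubU : V.biUnion (fun i => bd F V i) ⊆ up V F \ F := by
    intro B hB
    rw [mem_biUnion] at hB
    obtain ⟨i, _, hB⟩ := hB
    rw [mem_bd] at hB
    rw [mem_sdiff, mem_up]
    exact ⟨⟨hB.1, B.erase i, hB.2.2.2, erase_subset i B⟩, hB.2.2.1⟩
  have hFU : F ⊆ up V F := fun S hS => mem_up.mpr ⟨hF S hS, S, hS, Subset.refl S⟩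
  have hUV : (up V F).card ≤ 2 ^ V.card := by
    rw [← card_powerset]
    exact card_le_card (filter_subset _ _)
  have hb : bsum V F + F.card ≤ (up V F).card := by
    rw [← card_biUnion_bd huc]
    have := card_le_card hsubU
    rw [card_sdiff_of_subset hFU] at this
    have := card_le_card hFU
    omega
  rcases le_or_gt (2 * 2 ^ V.card) (3 * F.card) with h | h
  · have h1 := iso_large hF h
    have h2 : ((bsum V F : ℕ) : ℝ) + F.card ≤ 2 ^ V.card := by
      exact_mod_cast hb.trans hUV
    linarith
  · have h1 := iso_small hF h.le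
    have hjn : jn F G ⊆ F := by
      intro S hS
      obtain ⟨R, hR, T, hT, rfl⟩ := mem_jn.mp hS
      exact hGF R hR T hT
    have h2 := jn_up V F G hF hG
    have h3 : (up V F).card * G.card ≤ F.card * 2 ^ V.card :=
      h2.trans (Nat.mul_le_mul_right _ (card_le_card hjn))
    have h4 : 2 * (up V F).card ≤ 3 * F.card := by
      have hp : 0 < 2 ^ V.card := by positivity
      by_contra hcon
      push Not at hcon
      have h5 : 3 * F.card * 2 ^ V.card < 2 * (up V F).card * 2 ^ V.card :=
        Nat.mul_lt_mul_of_pos_right hcon hp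
      have h6 : (up V F).card * (2 * 2 ^ V.card) ≤ (up V F).card * (3 * G.card) :=
        Nat.mul_le_mul_left _ hbig
      nlinarith
    have h5 : 2 * bsum V F ≤ F.card := by omega
    have h6 : 2 * ((bsum V F : ℕ) : ℝ) ≤ F.card := by exact_mod_cast h5
    linarith

end Pool.Agent.H44.Loc
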