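import Pool.Agent.H44.LocIso

/-!
Union-closed families that contain at least two thirds of the subsets of a set `V`.
-/

set_option autoImplicit false
set_option linter.unusedSectionVars false

namespace Pool.Agent.H44.Loc

open Finset Pool.Agent.H67.Cube Pool.Agent.H25

variable {α : Type*} [DecidableEq α]

lemma iu_sdiff (S V : Finset α) : S ∩ V ∪ S \ V = S := by
  rw [union_comm, sdiff_union_inter]

/-- The fibre of `A` over the trace `Z` outside `V`. -/
def fib (V : Finset α) (A : Finset (Finset α)) (Z : Finset α) : Finset (Finset α) :=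
  V.powerset.filter (fun T => T ∪ Z ∈ A)

lemma mem_fib {V : Finset α} {A : Finset (Finset α)} {Z T : Finset α} :
    T ∈ fib V A Z ↔ T ⊆ V ∧ T ∪ Z ∈ A := by
  simp [fib]

/-- The traces outside `V`. -/
def tr (V : Finset α) (A : Finset (Finset α)) : Finset (Finset α) := A.image (fun S => S \ V)

lemma tr_disj {V : Finset α} {A : Finset (Finset α)} {Z : Finset α} (hZ : Z ∈ tr V A) :
    Disjoint Z V := by
  obtain ⟨S, _, rfl⟩ := mem_image.mp hZ
  exact sdiff_disjoint

lemma card_fibre (V : Finset α) (A : Finset (Finset α)) (P : Finset α → Prop) [DecidablePred P]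
    (hP : ∀ S : Finset α, P (S ∩ V) ↔ P S) :
    (A.filter P).card = ∑ Z ∈ tr V A, ((fib V A Z).filter P).card := by
  have h1 : (A.filter P).card =
      ∑ Z ∈ tr V A, ((A.filter P).filter (fun S => S \ V = Z)).card := by
    apply card_eq_sum_card_fiberwise
    intro S hS
    simp only [coe_filter, Set.mem_ofPred_eq] at hS
    exact mem_image.mpr ⟨S, hS.1, rfl⟩
  rw [h1]
  apply sum_congr rfl
  intro Z hZ
  have hd := tr_disj hZ
  apply card_nbij' (fun S => S ∩ V) (fun T => T ∪ Z)
  · intro S hS
    simp only [coe_filter, mem_filter, Set.mem_ofPred_eq] at hS ⊢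
    rw [mem_fib]
    refine ⟨⟨inter_subset_right, ?_⟩, (hP S).mpr hS.1.2⟩
    rw [← hS.2, iu_sdiff]
    exact hS.1.1
  · intro T hT
    simp only [coe_filter, mem_filter, Set.mem_ofPred_eq] at hT ⊢
    rw [mem_fib] at hT
    have e1 : (T ∪ Z) ∩ V = T := by
      rw [union_inter_distrib_right, disjoint_iff_inter_eq_empty.mp hd, union_empty,
        inter_eq_left.mpr hT.1.1]
    refine ⟨⟨hT.1.2, ?_⟩, ?_⟩
    · rw [← hP, e1]
      exact hT.2
    · rw [union_sdiff_distrib, sdiff_eq_empty_iff_subset.mpr hT.1.1, empty_union,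
        sdiff_eq_self_of_disjoint hd]
  · intro S hS
    simp only [coe_filter, mem_filter, Set.mem_ofPred_eq] at hS
    change S ∩ V ∪ Z = S
    rw [← hS.2, iu_sdiff]
  · intro T hT
    simp only [coe_filter, Set.mem_ofPred_eq] at hT
    rw [mem_fib] at hT
    change (T ∪ Z) ∩ V = T
    rw [union_inter_distrib_right, disjoint_iff_inter_eq_empty.mp hd, union_empty,
      inter_eq_left.mpr hT.1.1]

/-- Excess of the family `F` on `V`. -/
noncomputable def ex (V : Finset α) (F : Finset (Finset α)) : ℝ :=
  ∑ x ∈ V, (2 * ((F.filter (fun S => x ∈ S)).card : ℝ) - F.card)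

lemma ex_fibre (V : Finset α) (A : Finset (Finset α)) :
    ex V A = ∑ Z ∈ tr V A, ex V (fib V A Z) := by
  unfold ex
  rw [sum_comm]
  apply sum_congr rfl
  intro x hx
  have h1 := card_fibre V A (fun S => x ∈ S) (fun S => by simp [hx])
  have h2 := card_fibre V A (fun _ => True) (fun S => by simp)
  simp only [filter_true] at h2
  rw [h1, h2]
  push_cast
  rw [mul_sum, ← sum_sub_distrib]

lemma fib_uc {V : Finset α} {A : Finset (Finset α)} (huc : ∀ X ∈ A, ∀ Y ∈ A, X ∪ Y ∈ A)
    (Z : Finset α) : ∀ X ∈ fib V A Z, ∀ Y ∈ fib V A Z, X ∪ Y ∈ fib V A Z := by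
  intro X hX Y hY
  rw [mem_fib] at hX hY ⊢
  refine ⟨union_subset hX.1 hY.1, ?_⟩
  have := huc _ hX.2 _ hY.2
  rwa [show X ∪ Z ∪ (Y ∪ Z) = X ∪ Y ∪ Z by ext; simp only [mem_union]; tauto] at this

lemma fib_closed {V : Finset α} {A : Finset (Finset α)} (huc : ∀ X ∈ A, ∀ Y ∈ A, X ∪ Y ∈ A)
    (Z : Finset α) : ∀ R ∈ fib V A Z, ∀ T ∈ A.filter (fun S => S ⊆ V), R ∪ T ∈ fib V A Z := by
  intro X hX Y hY
  rw [mem_fib] at hX ⊢
  rw [mem_filter] at hY
  refine ⟨union_subset hX.1 hY.2, ?_⟩
  have := huc _ hX.2 _ hY.1
  rwa [show X ∪ Z ∪ Y = X ∪ Y ∪ Z by ext; simp only [mem_union]; tauto] at this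

lemma ex_fib_nonneg {V : Finset α} {A : Finset (Finset α)}
    (huc : ∀ X ∈ A, ∀ Y ∈ A, X ∪ Y ∈ A)
    (hbig : 2 * 2 ^ V.card ≤ 3 * (A.filter (fun S => S ⊆ V)).card) (Z : Finset α) :
    0 ≤ ex V (fib V A Z) :=
  local_nonneg (G := A.filter (fun S => S ⊆ V)) (fun _ hS => (mem_filter.mp hS).2)
    (fun _ hS => (mem_fib.mp hS).1) (fib_uc huc Z) (fib_closed huc Z) hbig

/-- The members of `A` have average intersection at least `|V| / 2` with `V`. -/
theorem ex_nonneg {V : Finset α} {A : Finset (Finset α)} (huc : ∀ X ∈ A, ∀ Y ∈ A, X ∪ Y ∈ A)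
    (hbig : 2 * 2 ^ V.card ≤ 3 * (A.filter (fun S => S ⊆ V)).card) : 0 ≤ ex V A := by
  rw [ex_fibre]
  exact sum_nonneg fun Z _ => ex_fib_nonneg huc hbig Z

/-- A point whose singleton is a member and which lies in exactly half of the members is free. -/
lemma free_of_singleton {A : Finset (Finset α)} (huc : ∀ X ∈ A, ∀ Y ∈ A, X ∪ Y ∈ A) {x : α}
    (hx : {x} ∈ A) (hh : 2 * (A.filter (fun S => x ∈ S)).card = A.card) :
    ∀ S ∈ A, insert x S ∈ A ∧ S.erase x ∈ A := by
  have hins : ∀ S ∈ A, insert x S ∈ A := by
    intro S hS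
    have := huc _ hx _ hS
    rwa [← insert_eq] at this
  intro S hS
  refine ⟨hins S hS, ?_⟩
  by_cases hxS : x ∈ S
  · have hinj : Set.InjOn (fun T => insert x T) (A.filter (fun T => ¬ x ∈ T) : Set (Finset α)) := by
      intro T hT T' hT' h
      simp only [coe_filter, Set.mem_ofPred_eq] at hT hT'
      have h' : (insert x T).erase x = (insert x T').erase x := by
        have h2 : insert x T = insert x T' := h
        rw [h2]
      rwa [erase_insert hT.2, erase_insert hT'.2] at h'
    have hcard : (A.filter (fun T => x ∈ T)).card ≤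
        ((A.filter (fun T => ¬ x ∈ T)).image (fun T => insert x T)).card := by
      rw [card_image_of_injOn hinj]
      have := card_filter_add_card_filter_not (s := A) (fun T => x ∈ T)
      omega
    have hsub : (A.filter (fun T => ¬ x ∈ T)).image (fun T => insert x T) ⊆
        A.filter (fun T => x ∈ T) := by
      intro T hT
      obtain ⟨T', hT', rfl⟩ := mem_image.mp hT
      rw [mem_filter] at hT' ⊢
      exact ⟨hins T' hT'.1, mem_insert_self x T'⟩
    have heq := eq_of_subset_of_card_le hsub hcard
    have : S ∈ A.filter (fun T => x ∈ T) := mem_filter.mpr ⟨hS, hxS⟩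
    rw [← heq] at this
    obtain ⟨T, hT, rfl⟩ := mem_image.mp this
    rw [mem_filter] at hT
    rw [erase_insert hT.2]
    exact hT.1
  · rw [erase_eq_of_notMem hxS]
    exact hS

lemma sdiff_mem_of_free {A : Finset (Finset α)} (D : Finset α)
    (hD : ∀ x ∈ D, ∀ S ∈ A, S.erase x ∈ A) : ∀ S ∈ A, S \ D ∈ A := by
  induction D using Finset.induction_on with
  | empty => intro S hS; simpa using hS
  | insert a D ha ih =>
    intro S hS
    have h1 := ih (fun x hx => hD x (mem_insert_of_mem hx)) S hS
    have h2 := hD a (mem_insert_self a D) _ h1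
    rwa [← sdiff_insert] at h2

/-- **Main theorem for one set `V`.** -/
theorem main_one {V : Finset α} {A : Finset (Finset α)} (huc : ∀ X ∈ A, ∀ Y ∈ A, X ∪ Y ∈ A)
    (hbig : 2 * 2 ^ V.card ≤ 3 * (A.filter (fun S => S ⊆ V)).card) :
    (∃ x ∈ V, A.card < 2 * (A.filter (fun S => x ∈ S)).card) ∨
      ∀ S ∈ A, ∀ x ∈ V, insert x S ∈ A ∧ S.erase x ∈ A := by
  by_contra hcon
  push Not at hcon
  obtain ⟨htight, S0, hS0, x0, hx0, hbad⟩ := hcon
  -- the empty set
  have hempty : ∅ ∈ A := by
    by_contra hne
    have huc' : ∀ X ∈ insert ∅ A, ∀ Y ∈ insert ∅ A, X ∪ Y ∈ insert ∅ A := by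
      intro X hX Y hY
      rcases mem_insert.mp hX with rfl | hX
      · rwa [empty_union]
      · rcases mem_insert.mp hY with rfl | hY
        · rw [union_empty]
          exact mem_insert_of_mem hX
        · exact mem_insert_of_mem (huc X hX Y hY)
    have hbig' : 2 * 2 ^ V.card ≤ 3 * ((insert ∅ A).filter (fun S => S ⊆ V)).card :=
      hbig.trans (Nat.mul_le_mul_left 3 (card_le_card (filter_subset_filter _ (subset_insert _ _))))
    have h := ex_nonneg huc' hbig'
    have h2 : ex V (insert ∅ A) < 0 := by
      unfold ex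
      apply sum_neg
      · intro x hx
        have e1 : (insert ∅ A).filter (fun S => x ∈ S) = A.filter (fun S => x ∈ S) := by
          rw [filter_insert, if_neg (notMem_empty x)]
        rw [e1, card_insert_of_notMem hne]
        have h3 := htight x hx
        have h4 : (2 : ℝ) * (A.filter (fun S => x ∈ S)).card ≤ A.card := by exact_mod_cast h3
        push_cast
        linarith
      · exact ⟨x0, hx0⟩
    linarith
  -- all points of `V` lie in exactly half of the members
  have hterm : ∀ x ∈ V, (2 * ((A.filter (fun S => x ∈ S)).card : ℝ) - A.card) ≤ 0 := by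
    intro x hx
    have h3 := htight x hx
    have h4 : (2 : ℝ) * (A.filter (fun S => x ∈ S)).card ≤ A.card := by exact_mod_cast h3
    linarith
  have hzero : ex V A = 0 := le_antisymm (sum_nonpos hterm) (ex_nonneg huc hbig)
  have hhalf : ∀ x ∈ V, 2 * (A.filter (fun S => x ∈ S)).card = A.card := by
    intro x hx
    have h := (sum_eq_zero_iff_of_nonpos hterm).mp hzero x hx
    have h' : (2 : ℝ) * (A.filter (fun S => x ∈ S)).card = A.card := by linarith
    exact_mod_cast h'
  -- the points without singleton
  set R := V.filter (fun x => {x} ∉ A) with hR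
  have hRV : R ⊆ V := filter_subset _ _
  have hfree : ∀ x ∈ V \ R, ∀ S ∈ A, insert x S ∈ A ∧ S.erase x ∈ A := by
    intro x hx
    rw [mem_sdiff] at hx
    have hxV := hx.1
    have : {x} ∈ A := by
      by_contra h
      exact hx.2 (mem_filter.mpr ⟨hxV, h⟩)
    exact free_of_singleton huc this (hhalf x hxV)
  have hRne : R.Nonempty := by
    by_contra h
    rw [not_nonempty_iff_eq_empty] at h
    have := hfree x0 (by rw [h, sdiff_empty]; exact hx0) S0 hS0
    exact hbad this.1 this.2
  -- density in `R`
  have hbigR : 2 * 2 ^ R.card ≤ 3 * (A.filter (fun S => S ⊆ R)).card := by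
    have hle : (A.filter (fun S => S ⊆ V)).card ≤
        (A.filter (fun S => S ⊆ R)).card * 2 ^ (V \ R).card := by
      rw [← card_powerset, ← card_product]
      apply card_le_card_of_injOn (fun T => (T ∩ R, T \ R))
      · intro T hT
        simp only [coe_filter, Set.mem_ofPred_eq] at hT
        simp only [coe_product, Set.mem_prod, mem_coe, mem_filter, mem_powerset]
        refine ⟨⟨?_, inter_subset_right⟩, sdiff_subset_sdiff hT.2 (Subset.refl R)⟩
        have h1 := sdiff_mem_of_free (V \ R) (fun x hx S hS => (hfree x hx S hS).2) T hT.1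
        have h2 : T \ (V \ R) = T ∩ R := by
          ext x
          simp only [mem_sdiff, mem_inter, not_and, not_not]
          constructor
          · rintro ⟨h3, h4⟩
            exact ⟨h3, h4 (hT.2 h3)⟩
          · rintro ⟨h3, h4⟩
            exact ⟨h3, fun _ => h4⟩
        rwa [h2] at h1
      · intro T _ T' _ h
        simp only [Prod.mk.injEq] at h
        rw [← iu_sdiff T R, ← iu_sdiff T' R, h.1, h.2]
    have hc : V.card = R.card + (V \ R).card := by
      have := card_sdiff_add_card_eq_card hRV
      omega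
    have hpos : 0 < 2 ^ (V \ R).card := by positivity
    rw [hc, pow_add] at hbig
    by_contra hlt
    push Not at hlt
    have h1 : 3 * (A.filter (fun S => S ⊆ R)).card * 2 ^ (V \ R).card <
        2 * 2 ^ R.card * 2 ^ (V \ R).card := Nat.mul_lt_mul_of_pos_right hlt hpos
    nlinarith
  have hzeroR : ex R A = 0 := by
    unfold ex
    apply sum_eq_zero
    intro x hx
    have := hhalf x (hRV hx)
    have h' : (2 : ℝ) * (A.filter (fun S => x ∈ S)).card = A.card := by exact_mod_cast this
    linarith
  -- the fibre over the empty set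
  set F := fib R A ∅ with hF
  have hFR : ∀ S ∈ F, S ⊆ R := fun S hS => (mem_fib.mp hS).1
  have memF : ∀ S : Finset α, S ∈ F ↔ S ⊆ R ∧ S ∈ A := by
    intro S
    rw [hF, mem_fib, union_empty]
  have hexF : ex R F = 0 := by
    rw [ex_fibre] at hzeroR
    have hmem : (∅ : Finset α) ∈ tr R A := mem_image.mpr ⟨∅, hempty, empty_sdiff R⟩
    exact (sum_eq_zero_iff_of_nonneg (fun Z _ => ex_fib_nonneg huc hbigR Z)).mp hzeroR ∅ hmem
  have hFG : A.filter (fun S => S ⊆ R) = F := by
    ext S
    rw [mem_filter, memF, and_comm]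
  rw [hFG] at hbigR
  have hexF' : E R (ind F) = 2 * bsum R F := by
    have := excess_eq hFR
    unfold ex at hexF
    linarith
  have hiso := iso_large hFR hbigR
  have hucF : ∀ X ∈ F, ∀ Y ∈ F, X ∪ Y ∈ F := fib_uc (V := R) huc ∅
  -- the boundary is the whole complement
  have hb1 : (2 : ℝ) ^ R.card - F.card ≤ bsum R F := by linarith
  have hFsub : F ⊆ R.powerset := fun S hS => mem_powerset.mpr (hFR S hS)
  have hsubB : R.biUnion (fun i => bd F R i) ⊆ R.powerset \ F := by
    intro B hB
    rw [mem_biUnion] at hB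
    obtain ⟨i, _, hB⟩ := hB
    rw [mem_bd] at hB
    rw [mem_sdiff, mem_powerset]
    exact ⟨hB.1, hB.2.2.1⟩
  have hcov : R.biUnion (fun i => bd F R i) = R.powerset \ F := by
    apply eq_of_subset_of_card_le hsubB
    rw [card_biUnion_bd hucF, card_sdiff_of_subset hFsub, card_powerset]
    have hle : F.card ≤ 2 ^ R.card := by
      rw [← card_powerset]
      exact card_le_card hFsub
    have h2 : (2 : ℝ) ^ R.card ≤ bsum R F + F.card := by linarith
    have h3 : 2 ^ R.card ≤ bsum R F + F.card := by exact_mod_cast h2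
    omega
  have hlow : ∀ B ⊆ R, B ∉ A → ∃ i ∈ B, B.erase i ∈ A := by
    intro B hB hBA
    have : B ∈ R.powerset \ F := by
      rw [mem_sdiff, mem_powerset, memF]
      exact ⟨hB, fun h => hBA h.2⟩
    rw [← hcov, mem_biUnion] at this
    obtain ⟨i, _, hi⟩ := this
    rw [mem_bd] at hi
    exact ⟨i, hi.2.1, ((memF _).mp hi.2.2.2).2⟩
  have hsing : ∀ x ∈ R, {x} ∉ A := fun x hx => (mem_filter.mp hx).2
  have hpair : ∀ x ∈ R, ∀ y ∈ R, x ≠ y → {x, y} ∈ A := by
    intro x hx y hy hxy
    by_contra h
    obtain ⟨i, hi, hiA⟩ := hlow {x, y} (by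
      intro z hz
      rw [mem_insert, mem_singleton] at hz
      rcases hz with rfl | rfl
      · exact hx
      · exact hy) h
    rw [mem_insert, mem_singleton] at hi
    rcases hi with rfl | rfl
    · rw [erase_insert (by rwa [mem_singleton])] at hiA
      exact hsing y hy hiA
    · have : ({x, i} : Finset α).erase i = {x} := by
        ext z
        simp only [mem_erase, mem_insert, mem_singleton]
        constructor
        · rintro ⟨h1, h2 | h2⟩
          · exact h2
          · exact absurd h2 h1
        · rintro rfl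
          exact ⟨hxy, Or.inl rfl⟩
      rw [this] at hiA
      exact hsing x hx hiA
  have honly : ∀ B ⊆ R, B ∉ A → ∃ i, B = {i} := by
    intro B hB hBA
    obtain ⟨i, hi, hiA⟩ := hlow B hB hBA
    refine ⟨i, ?_⟩
    by_contra hne
    have hex : ∃ y ∈ B, y ≠ i := by
      by_contra h
      push Not at h
      apply hne
      ext z
      rw [mem_singleton]
      exact ⟨fun hz => h z hz, fun hz => hz ▸ hi⟩
    obtain ⟨y, hy, hyi⟩ := hex
    apply hBA
    have h1 := huc _ hiA _ (hpair i (hB hi) y (hB hy) (Ne.symm hyi))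
    have h2 : B.erase i ∪ {i, y} = B := by
      ext z
      simp only [mem_union, mem_erase, mem_insert, mem_singleton]
      constructor
      · rintro (h | rfl | rfl)
        · exact h.2
        · exact hi
        · exact hy
      · intro h
        by_cases hz : z = i
        · exact Or.inr (Or.inl hz)
        · exact Or.inl ⟨hz, h⟩
    rwa [h2] at h1
  -- counting
  set r := R.card with hr
  have hr1 : 1 ≤ r := card_pos.mpr hRne
  have hFcard : F.card + r ≤ 2 ^ r := by
    have hdis : Disjoint F (R.image (fun x => ({x} : Finset α))) := by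
      rw [disjoint_left]
      intro S hS hS'
      obtain ⟨x, hx, rfl⟩ := mem_image.mp hS'
      exact hsing x hx ((memF _).mp hS).2
    have hc1 : (R.image (fun x => ({x} : Finset α))).card = r := by
      rw [card_image_of_injective _ singleton_injective]
    rw [← hc1, ← card_union_of_disjoint hdis, hc1, hr, ← card_powerset]
    apply card_le_card
    apply union_subset hFsub
    intro S hS
    obtain ⟨x, hx, rfl⟩ := mem_image.mp hS
    rw [mem_powerset, singleton_subset_iff]
    exact hx
  have hFx : ∀ x ∈ R, 2 ^ (r - 1) ≤ (F.filter (fun S => x ∈ S)).card + 1 := by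
    intro x hx
    have hc2 : ((R.erase x).powerset.erase ∅).card = 2 ^ (r - 1) - 1 := by
      rw [card_erase_of_mem (empty_mem_powerset _), card_powerset, card_erase_of_mem hx]
    have hle : ((R.erase x).powerset.erase ∅).card ≤ (F.filter (fun S => x ∈ S)).card := by
      apply card_le_card_of_injOn (fun T => insert x T)
      · intro T hT
        simp only [coe_erase, Set.mem_sdiff, mem_coe, mem_powerset, Set.mem_singleton_iff] at hT
        simp only [coe_filter, Set.mem_ofPred_eq]
        refine ⟨?_, mem_insert_self x T⟩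
        rw [memF]
        have hxT : x ∉ T := fun h => (mem_erase.mp (hT.1 h)).1 rfl
        have hsub : insert x T ⊆ R := insert_subset hx (hT.1.trans (erase_subset x R))
        refine ⟨hsub, ?_⟩
        by_contra h
        obtain ⟨i, hi⟩ := honly _ hsub h
        apply hT.2
        have hxi : x = i := by
          have := mem_insert_self x T
          rw [hi, mem_singleton] at this
          exact this
        subst hxi
        rw [eq_empty_iff_forall_notMem]
        intro y hy
        have : y ∈ insert x T := mem_insert_of_mem hy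
        rw [hi, mem_singleton] at this
        exact hxT (this ▸ hy)
      · intro T hT T' hT' h
        simp only [coe_erase, Set.mem_sdiff, mem_coe, mem_powerset, Set.mem_singleton_iff] at hT hT'
        have hxT : x ∉ T := fun h => (mem_erase.mp (hT.1 h)).1 rfl
        have hxT' : x ∉ T' := fun h => (mem_erase.mp (hT'.1 h)).1 rfl
        have h' : (insert x T).erase x = (insert x T').erase x := by
          have h2 : insert x T = insert x T' := h
          rw [h2]
        rwa [erase_insert hxT, erase_insert hxT'] at h'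
    have : 1 ≤ 2 ^ (r - 1) := Nat.one_le_two_pow
    omega
  have hpow : 2 ^ r = 2 * 2 ^ (r - 1) := by
    rw [← pow_succ', Nat.sub_add_cancel hr1]
  rcases Nat.lt_or_ge r 3 with h3 | h3
  · interval_cases r
    · omega
    · omega
  · -- some point is in more than half of `F`
    have hpos : 0 < ex R F := by
      unfold ex
      apply sum_pos _ hRne
      intro x hx
      have h1 := hFx x hx
      have h2 : F.card < 2 * (F.filter (fun S => x ∈ S)).card := by omega
      have h4 : (F.card : ℝ) < 2 * (F.filter (fun S => x ∈ S)).card := by exact_mod_cast h2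
      linarith
    linarith

end Pool.Agent.H44.Loc
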