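import Pool.Agent.H34.PowMonBasic

/-!
# Minimal factorizations in a monoid, and unions of minimal length sets
-/

namespace Pool.Agent.H44.MinFac

open Pool.Agent.H34.PowMon
open scoped Pointwise

section Defs

variable {M : Type*} [Monoid M]

/-- `x` and `y` divide each other. -/
def Equivalent (x y : M) : Prop := Divides x y ∧ Divides y x

/-- The word `w` is a factorization of `x`: its letters are irreducible and its product is `x`. -/
def IsFactorization (w : List M) (x : M) : Prop := (∀ a ∈ w, Irred a) ∧ w.prod = x

/-- The word `w` is a minimal factorization of `x`: it is a factorization of `x`, and `x` has no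
strictly shorter factorization `v` whose letters can be matched injectively with equivalent
letters of `w`. -/
def IsMinFactorization (w : List M) (x : M) : Prop :=
  IsFactorization w x ∧ ¬ ∃ v : List M, IsFactorization v x ∧ v.length < w.length ∧
    ∃ τ : Fin v.length → Fin w.length, Function.Injective τ ∧
      ∀ i, Equivalent (v.get i) (w.get (τ i))

/-- The set of lengths of the minimal factorizations of `x`. -/
def minLengths (x : M) : Set ℕ := {m | ∃ w : List M, IsMinFactorization w x ∧ w.length = m}

end Defs

/-- The union of all minimal length sets of elements of `M` that contain `k`. -/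
def unionMinLengths (M : Type*) [Monoid M] (k : ℕ) : Set ℕ :=
  {n | ∃ x : M, k ∈ minLengths x ∧ n ∈ minLengths x}

/-! ## General facts -/

section Facts

variable {H : Type*} [Monoid H]

lemma equivalent_iff {X Y : PFin H} : Equivalent X Y ↔ X = Y := by
  constructor
  · rintro ⟨h1, h2⟩
    exact divides_antisymm h1 h2
  · rintro rfl
    exact ⟨⟨1, 1, by simp⟩, ⟨1, 1, by simp⟩⟩

/-- A shorter word made of letters of `w` at distinct places, with the same product, shows that
`w` is not minimal. -/
lemma not_min_of_idx {w : List (PFin H)} {X : PFin H} (idx : List (Fin w.length))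
    (hnd : idx.Nodup) (hlen : idx.length < w.length)
    (hprod : (idx.map w.get).prod = w.prod) : ¬ IsMinFactorization w X := by
  rintro ⟨⟨hw, hX⟩, hmin⟩
  apply hmin
  refine ⟨idx.map w.get, ⟨?_, by rw [hprod, hX]⟩, by simpa using hlen, ?_⟩
  · intro a ha
    obtain ⟨i, -, rfl⟩ := List.mem_map.mp ha
    exact hw _ (List.get_mem w i)
  · have hl : (idx.map w.get).length = idx.length := by simp
    refine ⟨fun i => idx.get (Fin.cast hl i), ?_, ?_⟩
    · intro i j hij
      have := (List.nodup_iff_injective_get.mp hnd) hij
      exact Fin.cast_injective hl this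
    · intro i
      rw [equivalent_iff]
      simp

/-- Lifting a permutation through a map. -/
lemma exists_of_perm_map {α β : Type*} {f : α → β} {l v : List β} (h : l.Perm v) :
    ∀ s : List α, l = s.map f → ∃ t : List α, s.Perm t ∧ t.map f = v := by
  induction h with
  | nil => intro s hs; exact ⟨s, List.Perm.refl _, hs.symm⟩
  | cons x _ ih =>
    intro s hs
    cases s with
    | nil => simp at hs
    | cons a s =>
      simp only [List.map_cons, List.cons.injEq] at hs
      obtain ⟨t, ht1, ht2⟩ := ih s hs.2
      exact ⟨a :: t, ht1.cons a, by simp [ht2, hs.1]⟩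
  | swap x y l =>
    intro s hs
    match s, hs with
    | a :: b :: s, hs =>
      simp only [List.map_cons, List.cons.injEq] at hs
      exact ⟨b :: a :: s, List.Perm.swap b a s, by simp [hs.1, hs.2.1, hs.2.2]⟩
  | trans _ _ ih1 ih2 =>
    intro s hs
    obtain ⟨t, ht1, ht2⟩ := ih1 s hs
    obtain ⟨u, hu1, hu2⟩ := ih2 t ht2.symm
    exact ⟨u, ht1.trans hu1, hu2⟩

/-- A strictly shorter word obtained by permuting some of the letters of `w`, with the same
product, shows that `w` is not minimal. -/
lemma not_min_of_subperm {w v : List (PFin H)} {X : PFin H} (hv : v.Subperm w)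
    (hlen : v.length < w.length) (hprod : v.prod = w.prod) : ¬ IsMinFactorization w X := by
  obtain ⟨l, hl1, hl2⟩ := hv
  obtain ⟨s, hs1, hs2⟩ := List.sublist_eq_map_getElem hl2
  obtain ⟨t, ht1, ht2⟩ := exists_of_perm_map hl1 s hs1
  have hnd : t.Nodup := by
    rw [← ht1.nodup_iff]
    exact hs2.imp (fun h => ne_of_lt h)
  refine not_min_of_idx t hnd ?_ ?_
  · have : t.length = v.length := by rw [← ht2]; simp
    omega
  · rw [← hprod, ← ht2]
    rfl

end Facts

end Pool.Agent.H44.MinFac
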