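import Pool.Agent.H44.MinFac

/-!
# A seven-element monoid whose fourth union of minimal length sets is {2, 4}
-/

namespace Pool.Agent.H44.MinFacEx

open Pool.Agent.H34.PowMon Pool.Agent.H44.MinFac
open scoped Pointwise

/-- The multiplication table. -/
def T : Fin 7 → Fin 7 → Fin 7 :=
  ![![0, 1, 2, 3, 4, 5, 6],
    ![1, 1, 1, 1, 1, 1, 1],
    ![2, 1, 1, 1, 1, 1, 2],
    ![3, 1, 1, 1, 1, 1, 2],
    ![4, 4, 4, 4, 4, 4, 4],
    ![5, 4, 4, 4, 4, 4, 5],
    ![6, 1, 2, 3, 1, 2, 6]]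

/-- The seven-element monoid. -/
@[ext]
structure K where
  /-- the underlying index -/
  val : Fin 7
deriving DecidableEq

instance : Mul K := ⟨fun x y => ⟨T x.val y.val⟩⟩
instance : One K := ⟨⟨0⟩⟩

lemma T_assoc : ∀ i j k : Fin 7, T (T i j) k = T i (T j k) := by decide +kernel

instance : Monoid K where
  mul_assoc x y z := K.ext (T_assoc x.val y.val z.val)
  one_mul x := K.ext ((by decide : ∀ i : Fin 7, T 0 i = i) x.val)
  mul_one x := K.ext ((by decide : ∀ i : Fin 7, T i 0 = i) x.val)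

/-- `K` is `Fin 7` as a set. -/
def equivFin : K ≃ Fin 7 := ⟨K.val, K.mk, fun _ => rfl, fun _ => rfl⟩

instance : Fintype K := Fintype.ofEquiv _ equivFin.symm

/-- The subset of `K` with a given bit mask. -/
def S (m : ℕ) : Set K := {x | m.testBit x.val.val = true}

lemma mem_S {m : ℕ} {x : K} : x ∈ S m ↔ m.testBit x.val.val = true := Iff.rfl

lemma S_inj {a b : ℕ} (ha : a < 128) (hb : b < 128) (h : S a = S b) : a = b := by
  apply Nat.eq_of_testBit_eq
  intro i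
  by_cases hi : i < 7
  · have := Set.ext_iff.mp h ⟨⟨i, hi⟩⟩
    rw [mem_S, mem_S] at this
    exact Bool.eq_iff_iff.mpr this
  · have h7 : (2 : ℕ) ^ 7 ≤ 2 ^ i := Nat.pow_le_pow_right (by norm_num) (by omega)
    rw [Nat.testBit_lt_two_pow (by omega), Nat.testBit_lt_two_pow (by omega)]

lemma S_surj (X : Set K) : ∃ m < 128, S m = X := by
  classical
  have hinj : Function.Injective (fun m : Fin 128 => S m.val) := by
    intro a b h
    exact Fin.ext (S_inj a.2 b.2 h)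
  have hcard : Fintype.card (Fin 128) = Fintype.card (Set K) := by
    rw [Fintype.card_set, Fintype.card_congr equivFin]
    simp
  have hbij := (Fintype.bijective_iff_injective_and_card _).mpr ⟨hinj, hcard⟩
  obtain ⟨m, hm⟩ := hbij.2 X
  exact ⟨m.val, m.2, hm⟩

/-- Union of the masks `g j` over the `j` satisfying `p`. -/
def fo (p : Fin 7 → Bool) (g : Fin 7 → ℕ) : ℕ :=
  (bif p 0 then g 0 else 0) ||| (bif p 1 then g 1 else 0) ||| (bif p 2 then g 2 else 0) |||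
  (bif p 3 then g 3 else 0) ||| (bif p 4 then g 4 else 0) ||| (bif p 5 then g 5 else 0) |||
  (bif p 6 then g 6 else 0)

lemma testBit_fo (p : Fin 7 → Bool) (g : Fin 7 → ℕ) (k : ℕ) :
    (fo p g).testBit k = true ↔ ∃ j, p j = true ∧ (g j).testBit k = true := by
  have h : ∀ j, (bif p j then g j else 0).testBit k = true ↔
      (p j = true ∧ (g j).testBit k = true) := by
    intro j
    cases p j <;> simp
  unfold fo
  simp only [Nat.testBit_or, Bool.or_eq_true, h]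
  constructor
  · rintro ((((((h | h) | h) | h) | h) | h) | h) <;> exact ⟨_, h⟩
  · rintro ⟨j, hj⟩
    fin_cases j <;> simp_all

/-- Product of masks. -/
def mulM (a b : ℕ) : ℕ :=
  fo (fun i => a.testBit i.val) (fun i => fo (fun j => b.testBit j.val) (fun j => 2 ^ (T i j).val))

lemma S_mul (a b : ℕ) : S (mulM a b) = S a * S b := by
  ext x
  rw [mem_S, mulM, testBit_fo, Set.mem_mul]
  constructor
  · rintro ⟨i, hi, hk⟩
    rw [testBit_fo] at hk
    obtain ⟨j, hj, hk⟩ := hk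
    rw [Nat.testBit_two_pow] at hk
    refine ⟨⟨i⟩, hi, ⟨j⟩, hj, K.ext (Fin.ext ?_)⟩
    exact of_decide_eq_true hk
  · rintro ⟨y, hy, z, hz, rfl⟩
    refine ⟨y.val, hy, ?_⟩
    rw [testBit_fo]
    refine ⟨z.val, hz, ?_⟩
    rw [Nat.testBit_two_pow]
    simp only [decide_eq_true_eq]
    rfl

lemma S_one : S 1 = 1 := by
  ext x
  rw [mem_S, Set.mem_one]
  constructor
  · intro h
    apply K.ext
    revert h
    have : ∀ i : Fin 7, Nat.testBit 1 i.val = true → i = 0 := by decide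
    exact this x.val
  · rintro rfl
    rfl

/-- Multiplication by an irreducible set, encoded as a table. -/
def step (X R : ℕ) : ℕ := (R >>> (7 * X)) % 128

/-- The tables of the eleven irreducible sets. -/
def tabs : List ℕ := [
  0xfffbffef7ebdfaefdbbf6e7cb9f2fffbffef7ebdfaefdbbf6e7cb9f2bf7afdeb76addaaf5abd6a74a9d29f3a7ce972a5ca8f1a3c6870a1c27ef9fbe76e9dba6ed9bb666c99b07ef9fbe76e9dba6ed9bb666c99b03e78f9e3668d9a2e58b9626489901e3878e162858a0e183860608180,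
  0xfffbffefffbffeefdbbf6efdbaf4fffbffefffbffeefdbbf6efdbaf4bf7afdebf7afdeaf5abd6af5aad49f3a7ce9f3a7ce8f1a3c68f1a2c47ef9fbe7ee9fba6ed9bb66ec9ab07ef9fbe7ee9fba6ed9bb66ec9ab03e78f9e3e68f9a2e58b962e48a901e3878e1e2878a0e183860e08280,
  0xfffbffef7ebdfafffbffef7ebcf8fffbffef7ebdfafffbffef7ebcf8bf7afdeb76addabf7afdeb76acd89f3a7ce972a5ca9f3a7ce972a4c87ef9fbe76e9dba7ed9fb676c9cb07ef9fbe76e9dba7ed9fb676c9cb03e78f9e3668d9a3e58f963648c901e3878e162858a1e187861608480,
  0xfffbffefffbffefffbffefffbefcfffbffefffbffefffbffefffbefcbf7afdebf7afdebf7afdebf7aedc9f3a7ce9f3a7ce9f3a7ce9f3a6cc7ef9fbe7ee9fba7ed9fb67ec9eb07ef9fbe7ee9fba7ed9fb67ec9eb03e78f9e3e68f9a3e58f963e48e901e3878e1e2878a1e187861e08680,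
  0xfffbffef7ebdfaefdbbf6e7cb9f2fffbffef7ebdfaefdbbf6e7cb9f2bf7afdeb76addaaf5abd6a74a9d2bf3afceb72adcaaf1abc6a70a9c27ef9fbe76e9dba6ed9bb666c98b07ef9fbe76e9dba6ed9bb666c98b03e78f9e3668d9a2e58b9626488903e38f8e3628d8a2e18b862608880,
  0xfffbffefffbffeefdbbf6efdbaf4fffbffefffbffeefdbbf6efdbaf4ff7bfdeff7bfdeef5bbd6ef5bad4df3b7cedf3b7cecf1b3c6cf1b2c47ef9fbe76e9dba6ed9bb666c98b07ef9fbe76e9dba6ed9bb666c98b07e79f9e7669d9a6e59b9666498905e3978e562958a4e193864609080,
  0xfffbffefffbffeefdbbf6efdbaf4fffbffefffbffeefdbbf6efdbaf4ff7bfdeff7bfdeef5bbd6ef5bad4df3b7cedf3b7cecf1b3c6cf1b2c47ef9fbe7ee9fba6ed9bb66ec9ab07ef9fbe7ee9fba6ed9bb66ec9ab07e79f9e7e69f9a6e59b966e49a905e3978e5e2978a4e193864e09280,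
  0xfffbffefffbffefffbffefffbefcfffbffefffbffefffbffefffbefcff7bfdeff7bfdeff7bfdeff7bedcdf3b7cedf3b7cedf3b7cedf3b6cc7ef9fbe76e9dba7ed9fb676c9cb07ef9fbe76e9dba7ed9fb676c9cb07e79f9e7669d9a7e59f967649c905e3978e562958a5e197865609480,
  0xfffbffefffbffefffbffefffbefcfffbffefffbffefffbffefffbefcff7bfdeff7bfdeff7bfdeff7bedcdf3b7cedf3b7cedf3b7cedf3b6cc7ef9fbe7ee9fba7ed9fb67ec9eb07ef9fbe7ee9fba7ed9fb67ec9eb07e79f9e7e69f9a7e59f967e49e905e3978e5e2978a5e197865e09680,
  0xfffbefcfffbefcefdbaf4e7cb8f0dfbb6ecdfbb6eccf9b2e4c78b0e0bf7aedcbf7aedcaf5aad4a74a8d09f3a6cc9f3a6cc8f1a2c4870a0c0fefbebcfefbebceedbab4e6cb8b0debb6acdebb6acce9b2a4c68b0a0be7ae9cbe7ae9cae5aa94a64a8909e3a68c9e3a68c8e1a284860a080,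
  0xfffbffefffbffefffbffefffbefcfffbffefffbffefffbffefffbefcff7bfdeff7bfdeff7bfdeff7bedcdf3b7cedf3b7cedf3b7cedf3b6ccfefbfbefefbfbefedbfb6f6cbcb0fefbfbefefbfbefedbfb6f6cbcb0fe7bf9efe7bf9efe5bf96f64bc90de3b78ede3b78ede1b786d60b480]

/-- Decompositions of the reducible sets. -/
def wit : List (ℕ × ℕ × ℕ) := [
  (7, 3, 5), (11, 3, 9), (15, 3, 13), (19, 3, 17), (21, 17, 5), (23, 3, 21), (25, 17, 9), 
  (27, 3, 25), (29, 17, 13), (31, 3, 29), (35, 3, 33), (39, 3, 37), (43, 3, 41), (47, 3, 45), 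
  (49, 17, 33), (51, 3, 49), (53, 17, 37), (55, 3, 53), (57, 17, 41), (59, 3, 57), 
  (61, 17, 45), (63, 3, 61), (67, 3, 65), (69, 5, 65), (71, 3, 69), (73, 65, 9), (75, 3, 73), 
  (77, 9, 65), (79, 3, 77), (81, 17, 65), (83, 3, 81), (85, 17, 69), (87, 3, 85), 
  (89, 17, 73), (91, 3, 89), (93, 17, 77), (95, 3, 93), (97, 33, 65), (99, 3, 97), 
  (101, 37, 65), (103, 3, 101), (107, 3, 105), (109, 41, 65), (111, 3, 109), (113, 17, 97), 
  (115, 3, 113), (117, 17, 101), (119, 3, 117), (121, 17, 105), (123, 3, 121), 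
  (125, 17, 109), (127, 3, 125)]

/-- The sets belonging to the tables. -/
def atoms : List ℕ := tabs.map (step 1)

lemma atoms_lt : ∀ R ∈ tabs, step 1 R < 128 := by decide +kernel

lemma step_eq : ∀ R ∈ tabs, ∀ X < 128, step X R = mulM X (step 1 R) := by decide +kernel

lemma step_lt (X R : ℕ) : step X R < 128 := Nat.mod_lt _ (by norm_num)

lemma wit_ok : ∀ t ∈ wit, mulM t.2.1 t.2.2 = t.1 ∧ t.2.1 ≠ t.1 ∧ t.2.2 ≠ t.1 ∧
    t.1 < 128 ∧ t.2.1 < 128 ∧ t.2.2 < 128 ∧ t.2.1.testBit 0 = true ∧ t.2.2.testBit 0 = true := by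
  decide +kernel

lemma cover : ∀ m < 128, m.testBit 0 = true → m = 1 ∨ m ∈ atoms ∨ m ∈ wit.map Prod.fst := by
  decide +kernel

lemma irr_cases {A : Set K} (hA : Irr A) : ∃ R ∈ tabs, S (step 1 R) = A := by
  obtain ⟨m, hm, rfl⟩ := S_surj A
  have h0 : m.testBit 0 = true := hA.2.1
  rcases cover m hm h0 with rfl | h | h
  · exact absurd S_one hA.2.2.1
  · obtain ⟨R, hR, rfl⟩ := List.mem_map.mp h
    exact ⟨R, hR, rfl⟩
  · exfalso
    obtain ⟨t, ht, rfl⟩ := List.mem_map.mp h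
    obtain ⟨h1, h2, h3, h4, h5, h6, h7, h8⟩ := wit_ok t ht
    have := hA.2.2.2 (S t.2.1) (S t.2.2) h7 h8 (by rw [← S_mul, h1])
    rcases this with h | h
    · exact h2 (S_inj h5 h4 h)
    · exact h3 (S_inj h6 h4 h)

/-- Product of a word of tables. -/
def pr (w : List ℕ) : ℕ := w.foldl step 1

lemma foldl_lt (w : List ℕ) (a : ℕ) (ha : a < 128) : w.foldl step a < 128 := by
  induction w generalizing a with
  | nil => exact ha
  | cons R w ih => exact ih _ (step_lt _ _)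

lemma S_foldl (w : List ℕ) (hw : ∀ R ∈ w, R ∈ tabs) (a : ℕ) (ha : a < 128) :
    S (w.foldl step a) = S a * (w.map (fun R => S (step 1 R))).prod := by
  induction w generalizing a with
  | nil => simp
  | cons R w ih =>
    have hR := hw R (by simp)
    rw [List.foldl_cons, ih (fun R' h => hw R' (by simp [h])) _ (step_lt _ _), List.map_cons,
      List.prod_cons, ← mul_assoc, ← S_mul, step_eq R hR a ha]

lemma S_pr (w : List ℕ) (hw : ∀ R ∈ w, R ∈ tabs) :
    S (pr w) = (w.map (fun R => S (step 1 R))).prod := by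
  rw [pr, S_foldl w hw 1 (by norm_num), S_one, one_mul]

lemma pr_lt (w : List ℕ) : pr w < 128 := foldl_lt w 1 (by norm_num)

/-- Encoding of a word of irreducibles. -/
lemma exists_code (w : List (PFin K)) (hw : ∀ a ∈ w, Irred a) :
    ∃ c : List ℕ, (∀ R ∈ c, R ∈ tabs) ∧ c.map (fun R => S (step 1 R)) = w.map Subtype.val := by
  induction w with
  | nil => exact ⟨[], by simp, rfl⟩
  | cons a w ih =>
    obtain ⟨c, hc1, hc2⟩ := ih (fun b hb => hw b (by simp [hb]))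
    obtain ⟨R, hR1, hR2⟩ := irr_cases (irred_iff.mp (hw a (by simp)))
    refine ⟨R :: c, ?_, by simp [hR2, hc2]⟩
    intro R' h
    rcases List.mem_cons.mp h with rfl | h
    · exact hR1
    · exact hc1 R' h

/-- All words of one to three distinct places out of four. -/
def idx4 : List (List (Fin 4)) := [
  [0, 1, 2], [0, 1, 3], [0, 2, 1], [0, 2, 3], [0, 3, 1], [0, 3, 2], [1, 0, 2], [1, 0, 3], 
  [1, 2, 0], [1, 2, 3], [1, 3, 0], [1, 3, 2], [2, 0, 1], [2, 0, 3], [2, 1, 0], [2, 1, 3], 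
  [2, 3, 0], [2, 3, 1], [3, 0, 1], [3, 0, 2], [3, 1, 0], [3, 1, 2], [3, 2, 0], [3, 2, 1], 
  [0, 1], [0, 2], [0, 3], [1, 0], [1, 2], [1, 3], [2, 0], [2, 1], [2, 3], [3, 0], [3, 1], 
  [3, 2], [0], [1], [2], [3]]

/-- All words of one or two distinct places out of three. -/
def idx3 : List (List (Fin 3)) := [
  [0, 1], [0, 2], [1, 0], [1, 2], [2, 0], [2, 1], [0], [1], [2]]

lemma idx4_ok : ∀ ix ∈ idx4, ix.Nodup ∧ ix.length < 4 := by decide +kernel

lemma idx3_ok : ∀ ix ∈ idx3, ix.Nodup ∧ ix.length < 3 := by decide +kernel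

/-- Every word of four tables gives the set with mask 123 or can be shortened. -/
def ok4 (a b c d : ℕ) : Bool :=
  (pr [a, b, c, d]).beq 123 ||
    idx4.any (fun ix => (pr (ix.map [a, b, c, d].get)).beq (pr [a, b, c, d]))

/-- Every word of three tables not giving the set with mask 123 or can be shortened. -/
def ok3 (a b c : ℕ) : Bool :=
  !(pr [a, b, c]).beq 123 ||
    idx3.any (fun ix => (pr (ix.map [a, b, c].get)).beq (pr [a, b, c]))

lemma check4 : (tabs.all fun a => tabs.all fun b => tabs.all fun c => tabs.all fun d =>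
    ok4 a b c d) = true := by decide +kernel

lemma check3 : (tabs.all fun a => tabs.all fun b => tabs.all fun c => ok3 a b c) = true := by
  decide +kernel

end Pool.Agent.H44.MinFacEx
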