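import Pool.Agent.H44.LocMain

/-!
Union-closed families that are locally dense: if every point of a set `W` lies in a subset `V` of
`W` such that at least two thirds of the subsets of `V` are members of `A`, then some point of `W`
lies in strictly more than half of the members of `A`, except when adding or removing points
of `W` never leads out of `A`.
-/

set_option autoImplicit false

open Finset Pool.Agent.H44.Loc

namespace Pool.Agent.H44.OffLocalTwoThirds

/-- Let `A` be a finite union-closed family of finite sets and `W` a finite set such that every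
point of `W` lies in a set `V ⊆ W` for which at least two thirds of the `2 ^ |V|` subsets of `V`
are members of `A`. Then some point of `W` lies in strictly more than half of the members of `A`,
or for all `S ∈ A` and `x ∈ W` both `S ∪ {x}` and `S \ {x}` are members of `A`. In particular, if
`A` is nonempty, `W` is the union of `A` and `A` is not the power set of `W`, then some point of
the union lies in strictly more than half of the members. -/
theorem result {α : Type*} [DecidableEq α] (A : Finset (Finset α))
    (huc : ∀ X ∈ A, ∀ Y ∈ A, X ∪ Y ∈ A) (W : Finset α)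
    (hW : ∀ x ∈ W, ∃ V ⊆ W, x ∈ V ∧
      2 * 2 ^ V.card ≤ 3 * (A.filter (fun S => S ⊆ V)).card) :
    ((∃ x ∈ W, A.card < 2 * (A.filter (fun S => x ∈ S)).card) ∨
      ∀ S ∈ A, ∀ x ∈ W, insert x S ∈ A ∧ S.erase x ∈ A) ∧
    (A.Nonempty → W = A.sup id → A ≠ (A.sup id).powerset →
      ∃ x ∈ A.sup id, A.card < 2 * (A.filter (fun S => x ∈ S)).card) := by
  have h1 : (∃ x ∈ W, A.card < 2 * (A.filter (fun S => x ∈ S)).card) ∨
      ∀ S ∈ A, ∀ x ∈ W, insert x S ∈ A ∧ S.erase x ∈ A := by
    by_cases h : ∃ x ∈ W, A.card < 2 * (A.filter (fun S => x ∈ S)).card
    · exact Or.inl h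
    · refine Or.inr fun S hS x hx => ?_
      obtain ⟨V, hVW, hxV, hV⟩ := hW x hx
      rcases main_one huc hV with ⟨y, hy, hlt⟩ | h2
      · exact absurd ⟨y, hVW hy, hlt⟩ h
      · exact h2 S hS x hxV
  refine ⟨h1, ?_⟩
  intro hne hWU hpow
  rcases h1 with h2 | h2
  · rwa [hWU] at h2
  · exfalso
    apply hpow
    apply Subset.antisymm
    · intro S hS
      rw [mem_powerset]
      exact Finset.le_sup (f := id) hS
    · intro T hT
      rw [mem_powerset, ← hWU] at hT
      obtain ⟨S, hS⟩ := hne
      -- the empty set is a member
      have h3 : ∀ D : Finset α, D ⊆ W → S \ D ∈ A := by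
        intro D hD
        exact sdiff_mem_of_free D (fun x hx R hR => (h2 R hR x (hD hx)).2) S hS
      have hSW : S ⊆ W := by
        rw [hWU]
        exact Finset.le_sup (f := id) hS
      have h4 : (∅ : Finset α) ∈ A := by
        have h5 := h3 S hSW
        rwa [Finset.sdiff_self] at h5
      -- every subset of `W` is a member
      induction T using Finset.induction_on with
      | empty => exact h4
      | insert a T _ ih =>
        exact (h2 T (ih ((subset_insert a T).trans hT)) a (hT (mem_insert_self a T))).1

end Pool.Agent.H44.OffLocalTwoThirds
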