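import Mathlib

set_option autoImplicit false

namespace Pool.Agent.H44.Reflect

variable {α : Type*} [DecidableEq α]

/-- Every nonempty member `B` has a point `x` such that every member `S ⊆ B` avoiding `x` is the
largest member avoiding `x` of some member `C` with `S ⊆ C ⊆ B` and `x ∈ C`. -/
def Reflecting (A : Finset (Finset α)) : Prop :=
  ∀ B ∈ A, B.Nonempty → ∃ x ∈ B, ∀ S ∈ A, S ⊆ B → x ∉ S →
    ∃ C ∈ A, S ⊆ C ∧ C ⊆ B ∧ x ∈ C ∧ ∀ D ∈ A, D ⊆ C → x ∉ D → D ⊆ S

/-- The point `x` reflects the family `A`: every member `S` avoiding `x` extends to a member `C`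
containing `x` such that `S` is the largest member inside `C` that avoids `x`. -/
def Reflects (A : Finset (Finset α)) (x : α) : Prop :=
  ∀ S ∈ A, x ∉ S → ∃ C ∈ A, S ⊆ C ∧ x ∈ C ∧ ∀ D ∈ A, D ⊆ C → x ∉ D → D ⊆ S

/-- The list `l` peels the family `A`: its first point lies in the universe of `A` and reflects
`A`, and the rest of the list peels the subfamily of the members avoiding this point; the empty
list peels `A` when `A` has no nonempty member. -/
def PeelsBy : Finset (Finset α) → List α → Prop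
  | A, [] => ∀ S ∈ A, S = ∅
  | A, x :: l => x ∈ A.sup id ∧ Reflects A x ∧ PeelsBy (A.filter (fun S => x ∉ S)) l

/-- `Y` covers `X` in the family `A` ordered by inclusion. -/
def CoversIn (A : Finset (Finset α)) (X Y : Finset α) : Prop :=
  X ∈ A ∧ Y ∈ A ∧ X ⊂ Y ∧ ∀ Z ∈ A, X ⊆ Z → Z ⊆ Y → Z = X ∨ Z = Y

/-- The inclusion order of `A ∪ {∅}` is upper semimodular: if two distinct members cover a common
member, their union covers both of them. -/
def Semimodular (A : Finset (Finset α)) : Prop :=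
  ∀ X Y Z : Finset α, CoversIn (insert ∅ A) Z X → CoversIn (insert ∅ A) Z Y → X ≠ Y →
    CoversIn (insert ∅ A) X (X ∪ Y)

/-- The inclusion order of `A ∪ {∅}` is relatively complemented: for members `X ⊆ Y ⊆ Z` there is
a member `W` between `X` and `Z` with `Y ∪ W = Z` and no member inside both `Y` and `W` except
those inside `X`. -/
def RelComplemented (A : Finset (Finset α)) : Prop :=
  ∀ X ∈ insert ∅ A, ∀ Y ∈ insert ∅ A, ∀ Z ∈ insert ∅ A, X ⊆ Y → Y ⊆ Z →
    ∃ W ∈ insert ∅ A, X ⊆ W ∧ W ⊆ Z ∧ Y ∪ W = Z ∧ ∀ V ∈ insert ∅ A, V ⊆ Y → V ⊆ W → V ⊆ X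

lemma sup_mem' {A : Finset (Finset α)} (hne : A.Nonempty)
    (huc : ∀ X ∈ A, ∀ Y ∈ A, X ∪ Y ∈ A) : A.sup id ∈ A := by
  rw [← Finset.sup'_eq_sup hne]
  exact Finset.sup'_mem (A : Set (Finset α)) (fun x hx y hy => huc x hx y hy) A hne id
    (fun i hi => hi)

lemma le_sup' {A : Finset (Finset α)} {S : Finset α} (hS : S ∈ A) : S ⊆ A.sup id :=
  Finset.le_sup (f := id) hS

/-- Key alternative, by induction on the length of the peeling list. -/
theorem key (l : List α) : ∀ A : Finset (Finset α), A.Nonempty →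
    (∀ X ∈ A, ∀ Y ∈ A, X ∪ Y ∈ A) → PeelsBy A l →
    (∃ x ∈ A.sup id, A.card < 2 * (A.filter (fun S => x ∈ S)).card) ∨
      ∀ S ∈ A, A.sup id \ S ∈ A := by
  induction l with
  | nil =>
    intro A hne huc hR
    right
    intro S hS
    have hU := hR _ (sup_mem' hne huc)
    have hUA := sup_mem' hne huc
    have h2 : A.sup id \ S = A.sup id := by rw [hU]; simp
    rw [h2]; exact hUA
  | cons x l ih =>
  intro A hne huc hR
  obtain ⟨hxU, hx, hpeel⟩ := hR
  set U := A.sup id with hU
  have hUA : U ∈ A := sup_mem' hne huc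
  set N := A.filter (fun S => x ∉ S) with hN
  set P := A.filter (fun S => x ∈ S) with hP
  have hsum : P.card + N.card = A.card := by
    rw [hN, hP]; exact Finset.card_filter_add_card_filter_not _
  rcases Finset.eq_empty_or_nonempty N with hNe | hNne
  · left
    refine ⟨x, hxU, ?_⟩
    have : N.card = 0 := by rw [hNe]; simp
    have h2 : 0 < A.card := Finset.card_pos.2 hne
    change A.card < 2 * P.card
    omega
  -- the reflection map
  have hex : ∀ S ∈ N, ∃ C ∈ A, S ⊆ C ∧ x ∈ C ∧ ∀ D ∈ A, D ⊆ C → x ∉ D → D ⊆ S := by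
    intro S hS
    rw [hN, Finset.mem_filter] at hS
    exact hx S hS.1 hS.2
  choose! c hcA hcS hcx hcD using hex
  have hNmem : ∀ {S}, S ∈ N → S ∈ A ∧ x ∉ S := by
    intro S hS; rw [hN, Finset.mem_filter] at hS; exact hS
  have hPmem : ∀ {S}, S ∈ P ↔ S ∈ A ∧ x ∈ S := by
    intro S; rw [hP, Finset.mem_filter]
  have hinj : Set.InjOn c N := by
    intro S hS T hT hST
    have hS' := hNmem hS
    have hT' := hNmem hT
    apply Finset.Subset.antisymm
    · exact hcD T hT S hS'.1 (by rw [← hST]; exact hcS S hS) hS'.2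
    · exact hcD S hS T hT'.1 (by rw [hST]; exact hcS T hT) hT'.2
  have himg : N.image c ⊆ P := by
    intro C hC
    rw [Finset.mem_image] at hC
    obtain ⟨S, hS, rfl⟩ := hC
    exact hPmem.2 ⟨hcA S hS, hcx S hS⟩
  have hle : N.card ≤ P.card := by
    rw [← Finset.card_image_of_injOn hinj]; exact Finset.card_le_card himg
  rcases hle.lt_or_eq with hlt | heq
  · left
    refine ⟨x, hxU, ?_⟩
    change A.card < 2 * P.card
    omega
  have himgeq : N.image c = P := by
    apply Finset.eq_of_subset_of_card_le himg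
    rw [Finset.card_image_of_injOn hinj, heq]
  -- induction hypothesis for N
  have hNuc : ∀ X ∈ N, ∀ Y ∈ N, X ∪ Y ∈ N := by
    intro X hX Y hY
    have h1 := hNmem hX
    have h2 := hNmem hY
    rw [hN, Finset.mem_filter]
    refine ⟨huc X h1.1 Y h2.1, ?_⟩
    rw [Finset.mem_union]; tauto
  set m := N.sup id with hm
  have hmN : m ∈ N := sup_mem' hNne hNuc
  have hAcard : A.card = 2 * N.card := by omega
  -- frequency on P in terms of c
  have hfreq : ∀ y, (A.filter (fun S => y ∈ S)).card =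
      (N.filter (fun S => y ∈ S)).card + (N.filter (fun S => y ∈ c S)).card := by
    intro y
    have h1 : (A.filter (fun S => y ∈ S)) =
        (N.filter (fun S => y ∈ S)) ∪ (P.filter (fun S => y ∈ S)) := by
      ext S
      simp only [hN, hP, Finset.mem_filter, Finset.mem_union]
      tauto
    have h2 : Disjoint (N.filter (fun S => y ∈ S)) (P.filter (fun S => y ∈ S)) := by
      rw [Finset.disjoint_left]
      intro S hS hS'
      rw [Finset.mem_filter] at hS hS'
      exact (hNmem hS.1).2 (hPmem.1 hS'.1).2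
    have h3 : (P.filter (fun S => y ∈ S)) = (N.filter (fun S => y ∈ c S)).image c := by
      rw [← himgeq]
      ext C
      simp only [Finset.mem_filter, Finset.mem_image]
      constructor
      · rintro ⟨⟨S, hS, rfl⟩, hy⟩
        exact ⟨S, ⟨hS, hy⟩, rfl⟩
      · rintro ⟨S, ⟨hS, hy⟩, rfl⟩
        exact ⟨⟨S, hS, rfl⟩, hy⟩
    have h4 : ((N.filter (fun S => y ∈ c S)).image c).card = (N.filter (fun S => y ∈ c S)).card := by
      apply Finset.card_image_of_injOn
      intro S hS T hT h
      simp only [Finset.coe_filter] at hS hT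
      exact hinj hS.1 hT.1 h
    rw [h1, Finset.card_union_of_disjoint h2, h3, h4]
  have hsub : ∀ y, N.filter (fun S => y ∈ S) ⊆ N.filter (fun S => y ∈ c S) := by
    intro y S hS
    rw [Finset.mem_filter] at hS ⊢
    exact ⟨hS.1, hcS S hS.1 hS.2⟩
  rcases ih N hNne hNuc hpeel with ⟨y, hym, hy⟩ | hcomp
  · left
    have h1 := Finset.card_le_card (hsub y)
    refine ⟨y, le_sup' (hNmem hmN).1 hym, ?_⟩
    rw [hfreq y]
    omega
  by_cases hex : ∃ y ∈ U, A.card < 2 * (A.filter (fun S => y ∈ S)).card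
  · left; exact hex
  right
  push Not at hex
  have hhalf : ∀ y ∈ m, 2 * (N.filter (fun S => y ∈ S)).card = N.card := by
    intro y hy
    have h1 : (N.filter (fun S => y ∈ S)).card = (N.filter (fun S => y ∉ S)).card := by
      apply Finset.card_bij' (fun S _ => m \ S) (fun S _ => m \ S)
      · intro S hS
        rw [Finset.mem_filter] at hS ⊢
        refine ⟨hcomp S hS.1, ?_⟩
        rw [Finset.mem_sdiff]; tauto
      · intro S hS
        rw [Finset.mem_filter] at hS ⊢
        refine ⟨hcomp S hS.1, ?_⟩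
        rw [Finset.mem_sdiff]; tauto
      · intro S hS
        rw [Finset.mem_filter] at hS
        have : S ⊆ m := le_sup' hS.1
        simp [Finset.inter_eq_right.2 this, sdiff_sdiff_right_self]
      · intro S hS
        rw [Finset.mem_filter] at hS
        have : S ⊆ m := le_sup' hS.1
        simp [Finset.inter_eq_right.2 this, sdiff_sdiff_right_self]
    have h2 : (N.filter (fun S => y ∈ S)).card + (N.filter (fun S => y ∉ S)).card = N.card :=
      Finset.card_filter_add_card_filter_not _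
    omega
  have hcy : ∀ y ∈ m, ∀ S ∈ N, y ∈ c S → y ∈ S := by
    intro y hy S hS hyc
    have h1 := hex y (le_sup' (hNmem hmN).1 hy)
    rw [hfreq y] at h1
    have h2 := hhalf y hy
    have h3 : N.filter (fun S => y ∈ S) = N.filter (fun S => y ∈ c S) := by
      apply Finset.eq_of_subset_of_card_le (hsub y)
      omega
    have h4 : S ∈ N.filter (fun S => y ∈ c S) := by
      rw [Finset.mem_filter]; exact ⟨hS, hyc⟩
    rw [← h3, Finset.mem_filter] at h4
    exact h4.2
  have hcm : ∀ S ∈ N, c S ∩ m = S := by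
    intro S hS
    ext y
    rw [Finset.mem_inter]
    constructor
    · rintro ⟨h1, h2⟩; exact hcy y h2 S hS h1
    · intro h; exact ⟨hcS S hS h, le_sup' hS h⟩
  have hemp : (∅ : Finset α) ∈ N := by
    have := hcomp m hmN
    rwa [sdiff_self] at this
  have hcunion : ∀ S ∈ N, c S = S ∪ c ∅ := by
    intro S hS
    have h1 : S ∪ c ∅ ∈ P := hPmem.2 ⟨huc S (hNmem hS).1 _ (hcA ∅ hemp),
      Finset.mem_union_right _ (hcx ∅ hemp)⟩
    rw [← himgeq, Finset.mem_image] at h1
    obtain ⟨D, hD, hDe⟩ := h1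
    have h2 := hcm D hD
    rw [hDe, Finset.union_inter_distrib_right, hcm ∅ hemp, Finset.union_empty,
      Finset.inter_eq_left.2 (le_sup' hS)] at h2
    rw [← hDe, h2]
  have hUc : U = m ∪ c ∅ := by
    have h1 : U ∈ P := hPmem.2 ⟨hUA, hxU⟩
    rw [← himgeq, Finset.mem_image] at h1
    obtain ⟨D, hD, hDe⟩ := h1
    have h2 : D = m := by
      apply Finset.Subset.antisymm (le_sup' hD)
      have h3 := hcm D hD
      rw [hDe, Finset.inter_eq_right.2 (le_sup' (hNmem hmN).1)] at h3
      rw [← h3]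
    rw [← hDe, h2]
    exact hcunion m hmN
  have hdisj : ∀ y ∈ c ∅, y ∉ m := by
    intro y hy hym
    have := hcm ∅ hemp
    have h2 : y ∈ c ∅ ∩ m := Finset.mem_inter.2 ⟨hy, hym⟩
    rw [this] at h2
    simp at h2
  intro S hS
  by_cases hxS : x ∈ S
  · have h1 : S ∈ P := hPmem.2 ⟨hS, hxS⟩
    rw [← himgeq, Finset.mem_image] at h1
    obtain ⟨D, hD, hDe⟩ := h1
    have h2 : U \ S = m \ D := by
      rw [← hDe, hcunion D hD, hUc]
      ext y
      simp only [Finset.mem_sdiff, Finset.mem_union]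
      constructor
      · rintro ⟨h3 | h3, h4⟩
        · exact ⟨h3, fun h => h4 (Or.inl h)⟩
        · exact absurd (Or.inr h3) h4
      · rintro ⟨h3, h4⟩
        refine ⟨Or.inl h3, ?_⟩
        rintro (h5 | h5)
        · exact h4 h5
        · exact hdisj y h5 h3
    rw [h2]
    exact (hNmem (hcomp D hD)).1
  · have h1 : S ∈ N := by rw [hN, Finset.mem_filter]; exact ⟨hS, hxS⟩
    have h2 : U \ S = c (m \ S) := by
      rw [hcunion _ (hcomp S h1), hUc]
      have hSm : S ⊆ m := le_sup' h1
      ext y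
      simp only [Finset.mem_sdiff, Finset.mem_union]
      constructor
      · rintro ⟨h3 | h3, h4⟩
        · exact Or.inl ⟨h3, h4⟩
        · exact Or.inr h3
      · rintro (⟨h3, h4⟩ | h3)
        · exact ⟨Or.inl h3, h4⟩
        · exact ⟨Or.inr h3, fun h => hdisj y h3 (hSm h)⟩
    rw [h2]
    exact hcA _ (hcomp S h1)

/-- A separating union-closed family closed under complements in its universe is the power set. -/
lemma powerset_of_compl {A : Finset (Finset α)} (hne : A.Nonempty)
    (huc : ∀ X ∈ A, ∀ Y ∈ A, X ∪ Y ∈ A)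
    (hsep : ∀ x ∈ A.sup id, ∀ y ∈ A.sup id, x ≠ y →
      ∃ S ∈ A, (x ∈ S ∧ y ∉ S) ∨ (y ∈ S ∧ x ∉ S))
    (hc : ∀ S ∈ A, A.sup id \ S ∈ A) : A = (A.sup id).powerset := by
  set U := A.sup id with hU
  have hUA : U ∈ A := sup_mem' hne huc
  have hemp : (∅ : Finset α) ∈ A := by
    have := hc U hUA
    rwa [sdiff_self] at this
  have hint : ∀ X ∈ A, ∀ Y ∈ A, X ∩ Y ∈ A := by
    intro X hX Y hY
    have h1 := hc _ (huc _ (hc X hX) _ (hc Y hY))
    have h2 : U \ (U \ X ∪ U \ Y) = X ∩ Y := by
      have hXU : X ⊆ U := le_sup' hX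
      have hYU : Y ⊆ U := le_sup' hY
      ext z
      simp only [Finset.mem_sdiff, Finset.mem_union, Finset.mem_inter]
      constructor
      · rintro ⟨h3, h4⟩
        push Not at h4
        exact ⟨h4.1 h3, h4.2 h3⟩
      · rintro ⟨h3, h4⟩
        refine ⟨hXU h3, ?_⟩
        tauto
    rwa [h2] at h1
  have hsing : ∀ x ∈ U, ({x} : Finset α) ∈ A := by
    intro x hx
    -- intersection over y of members containing x but not y
    have h1 : ∀ T : Finset α, T ⊆ U → x ∉ T → ∃ S ∈ A, x ∈ S ∧ ∀ y ∈ T, y ∉ S := by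
      intro T
      induction T using Finset.induction_on with
      | empty => intro _ _; exact ⟨U, hUA, hx, by simp⟩
      | insert y T hy ihT =>
        intro hTU hxT
        rw [Finset.mem_insert, not_or] at hxT
        obtain ⟨S, hS, hxS, hST⟩ := ihT (fun z hz => hTU (Finset.mem_insert_of_mem hz)) hxT.2
        have hyU : y ∈ U := hTU (Finset.mem_insert_self _ _)
        have h2 : ∃ S' ∈ A, x ∈ S' ∧ y ∉ S' := by
          obtain ⟨S', hS', h | h⟩ := hsep x hx y hyU hxT.1
          · exact ⟨S', hS', h⟩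
          · refine ⟨U \ S', hc S' hS', ?_, ?_⟩
            · rw [Finset.mem_sdiff]; exact ⟨hx, h.2⟩
            · rw [Finset.mem_sdiff]; tauto
        obtain ⟨S', hS', hxS', hyS'⟩ := h2
        refine ⟨S ∩ S', hint S hS S' hS', Finset.mem_inter.2 ⟨hxS, hxS'⟩, ?_⟩
        intro z hz
        rw [Finset.mem_insert] at hz
        rw [Finset.mem_inter]
        rintro ⟨h3, h4⟩
        rcases hz with rfl | hz
        · exact hyS' h4
        · exact hST z hz h3
    obtain ⟨S, hS, hxS, hSy⟩ := h1 (U.erase x) (Finset.erase_subset _ _) (Finset.notMem_erase _ _)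
    have h2 : S = {x} := by
      ext y
      rw [Finset.mem_singleton]
      constructor
      · intro hy
        by_contra hne'
        exact hSy y (Finset.mem_erase.2 ⟨hne', le_sup' hS hy⟩) hy
      · rintro rfl; exact hxS
    rwa [h2] at hS
  apply Finset.Subset.antisymm
  · intro S hS
    rw [Finset.mem_powerset]; exact le_sup' hS
  · intro T
    induction T using Finset.induction_on with
    | empty => intro _; exact hemp
    | insert y T hy ihT =>
      intro hT
      rw [Finset.mem_powerset] at hT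
      have h1 : T ∈ A := ihT (Finset.mem_powerset.2 fun z hz => hT (Finset.mem_insert_of_mem hz))
      have h2 := huc _ (hsing y (hT (Finset.mem_insert_self _ _))) _ h1
      rwa [← Finset.insert_eq] at h2

/-- Reflecting families can be peeled. -/
lemma exists_peels (n : ℕ) : ∀ A : Finset (Finset α), A.card = n →
    (∀ X ∈ A, ∀ Y ∈ A, X ∪ Y ∈ A) → Reflecting A → ∃ l, PeelsBy A l := by
  induction n using Nat.strong_induction_on with
  | _ n ih =>
  intro A hcard huc hR
  rcases Finset.eq_empty_or_nonempty A with rfl | hne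
  · exact ⟨[], by intro S hS; simp at hS⟩
  have hUA := sup_mem' hne huc
  rcases Finset.eq_empty_or_nonempty (A.sup id) with hUe | hUne
  · refine ⟨[], ?_⟩
    intro S hS
    have := le_sup' hS
    rw [hUe] at this
    exact Finset.subset_empty.1 this
  obtain ⟨x, hxU, hx⟩ := hR _ hUA hUne
  set N := A.filter (fun S => x ∉ S) with hN
  have hNlt : N.card < n := by
    rw [← hcard]
    apply Finset.card_lt_card
    rw [Finset.ssubset_iff_subset_ne]
    refine ⟨Finset.filter_subset _ _, ?_⟩
    intro h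
    have : A.sup id ∈ N := by rw [h]; exact hUA
    rw [hN, Finset.mem_filter] at this
    exact this.2 hxU
  have hNmem : ∀ {S}, S ∈ N → S ∈ A ∧ x ∉ S := by
    intro S hS; rw [hN, Finset.mem_filter] at hS; exact hS
  have hNuc : ∀ X ∈ N, ∀ Y ∈ N, X ∪ Y ∈ N := by
    intro X hX Y hY
    have h1 := hNmem hX
    have h2 := hNmem hY
    rw [hN, Finset.mem_filter]
    refine ⟨huc X h1.1 Y h2.1, ?_⟩
    rw [Finset.mem_union]; tauto
  have hNR : Reflecting N := by
    intro B hB hBne
    have hB' := hNmem hB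
    obtain ⟨y, hyB, hy⟩ := hR B hB'.1 hBne
    refine ⟨y, hyB, ?_⟩
    intro S hS hSB hyS
    obtain ⟨C, hC, h1, h2, h3, h4⟩ := hy S (hNmem hS).1 hSB hyS
    refine ⟨C, ?_, h1, h2, h3, ?_⟩
    · rw [hN, Finset.mem_filter]
      exact ⟨hC, fun h => hB'.2 (h2 h)⟩
    · intro D hD
      exact h4 D (hNmem hD).1
  obtain ⟨l, hl⟩ := ih N.card hNlt N rfl hNuc hNR
  refine ⟨x :: l, hxU, ?_, hl⟩
  intro S hS hxS
  obtain ⟨C, hC, h1, _, h3, h4⟩ := hx S hS (le_sup' hS) hxS
  exact ⟨C, hC, h1, h3, h4⟩

/-- Restricting from `A ∪ {∅}` to `A`. -/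
lemma reflecting_of_insert {A : Finset (Finset α)} (h : Reflecting (insert ∅ A)) :
    Reflecting A := by
  intro B hB hBne
  obtain ⟨x, hxB, hx⟩ := h B (Finset.mem_insert_of_mem hB) hBne
  refine ⟨x, hxB, ?_⟩
  intro S hS hSB hxS
  obtain ⟨C, hC, h1, h2, h3, h4⟩ := hx S (Finset.mem_insert_of_mem hS) hSB hxS
  refine ⟨C, ?_, h1, h2, h3, fun D hD => h4 D (Finset.mem_insert_of_mem hD)⟩
  rw [Finset.mem_insert] at hC
  rcases hC with rfl | hC
  · simp at h3
  · exact hC

lemma uc_insert {A : Finset (Finset α)} (huc : ∀ X ∈ A, ∀ Y ∈ A, X ∪ Y ∈ A) :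
    ∀ X ∈ insert ∅ A, ∀ Y ∈ insert ∅ A, X ∪ Y ∈ insert ∅ A := by
  intro X hX Y hY
  rw [Finset.mem_insert] at hX hY
  rcases hX with rfl | hX
  · rw [Finset.empty_union, Finset.mem_insert]; exact hY
  · rcases hY with rfl | hY
    · rw [Finset.union_empty]; exact Finset.mem_insert_of_mem hX
    · exact Finset.mem_insert_of_mem (huc X hX Y hY)

lemma reflecting_of_relComplemented {A : Finset (Finset α)}
    (huc : ∀ X ∈ A, ∀ Y ∈ A, X ∪ Y ∈ A) (h : RelComplemented A) : Reflecting A := by
  apply reflecting_of_insert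
  have hucE := uc_insert huc
  unfold RelComplemented at h
  set E := insert ∅ A with hE
  intro B hB hBne
  obtain ⟨x, hx⟩ := hBne
  refine ⟨x, hx, ?_⟩
  intro S hS hSB hxS
  set M := E.filter (fun D => D ⊆ B ∧ x ∉ D) with hM
  have hMne : M.Nonempty := ⟨S, by rw [hM, Finset.mem_filter]; exact ⟨hS, hSB, hxS⟩⟩
  have hMuc : ∀ X ∈ M, ∀ Y ∈ M, X ∪ Y ∈ M := by
    intro X hX Y hY
    rw [hM, Finset.mem_filter] at hX hY ⊢
    refine ⟨hucE X hX.1 Y hY.1, Finset.union_subset hX.2.1 hY.2.1, ?_⟩
    rw [Finset.mem_union]; tauto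
  have hmM := sup_mem' hMne hMuc
  set m := M.sup id with hm
  have hmM' := hmM
  rw [hM, Finset.mem_filter] at hmM'
  have hSm : S ⊆ m := le_sup' (by rw [hM, Finset.mem_filter]; exact ⟨hS, hSB, hxS⟩)
  obtain ⟨W, hW, h1, h2, h3, h4⟩ := h S hS m hmM'.1 B hB hSm hmM'.2.1
  refine ⟨W, hW, h1, h2, ?_, ?_⟩
  · have : x ∈ m ∪ W := by rw [h3]; exact hx
    rw [Finset.mem_union] at this
    rcases this with h5 | h5
    · exact absurd h5 hmM'.2.2
    · exact h5
  · intro D hD hDW hxD
    apply h4 D hD _ hDW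
    apply le_sup'
    rw [hM, Finset.mem_filter]
    exact ⟨hD, hDW.trans h2, hxD⟩

/-- In a semimodular family an atom not below `w` gives a cover of `w`. -/
lemma cover_of_atom {A : Finset (Finset α)} (hsm : Semimodular A) {a : Finset α}
    (ha : CoversIn (insert ∅ A) ∅ a) :
    ∀ w ∈ insert ∅ A, ¬ a ⊆ w → CoversIn (insert ∅ A) w (w ∪ a) := by
  intro w
  induction w using Finset.strongInduction with
  | H w ih =>
  intro hw haw
  set E := insert ∅ A with hE
  rcases Finset.eq_empty_or_nonempty w with rfl | hwne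
  · rwa [Finset.empty_union]
  -- choose a maximal member strictly below w
  set M := E.filter (fun D => D ⊂ w) with hM
  have hMne : M.Nonempty := by
    refine ⟨∅, ?_⟩
    rw [hM, Finset.mem_filter]
    exact ⟨by rw [hE]; exact Finset.mem_insert_self _ _, hwne.empty_ssubset⟩
  obtain ⟨v, hv, hvmax⟩ := Finset.exists_max_image M Finset.card hMne
  rw [hM, Finset.mem_filter] at hv
  have hcov : CoversIn E v w := by
    refine ⟨hv.1, hw, hv.2, ?_⟩
    intro Z hZ hvZ hZw
    by_cases hZe : Z = w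
    · right; exact hZe
    · left
      have hZM : Z ∈ M := by
        rw [hM, Finset.mem_filter]; exact ⟨hZ, Finset.ssubset_iff_subset_ne.2 ⟨hZw, hZe⟩⟩
      exact (Finset.eq_of_subset_of_card_le hvZ (hvmax Z hZM)).symm
  have hav : ¬ a ⊆ v := fun h => haw (h.trans hv.2.1)
  have h1 := ih v hv.2 hv.1 hav
  have hne : w ≠ v ∪ a := by
    intro h
    apply haw
    rw [h]; exact Finset.subset_union_right
  have h2 := hsm w (v ∪ a) v hcov h1 hne
  have h3 : w ∪ (v ∪ a) = w ∪ a := by
    rw [← Finset.union_assoc, Finset.union_eq_left.2 hv.2.1]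
  rwa [h3] at h2

lemma reflecting_of_semimodular {A : Finset (Finset α)}
    (huc : ∀ X ∈ A, ∀ Y ∈ A, X ∪ Y ∈ A) (h : Semimodular A) : Reflecting A := by
  apply reflecting_of_insert
  have hucE := uc_insert huc
  have hcover := fun a ha => @cover_of_atom α _ A h a ha
  set E := insert ∅ A with hE
  have hempE : (∅ : Finset α) ∈ E := by rw [hE]; exact Finset.mem_insert_self _ _
  intro B hB hBne
  -- an atom below B
  set M := E.filter (fun D => D.Nonempty ∧ D ⊆ B) with hM
  have hMne : M.Nonempty := ⟨B, by rw [hM, Finset.mem_filter]; exact ⟨hB, hBne, Finset.Subset.refl _⟩⟩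
  obtain ⟨a, haM, hamin⟩ := Finset.exists_min_image M Finset.card hMne
  rw [hM, Finset.mem_filter] at haM
  have hatom : CoversIn E ∅ a := by
    refine ⟨hempE, haM.1, haM.2.1.empty_ssubset, ?_⟩
    intro Z hZ _ hZa
    rcases Finset.eq_empty_or_nonempty Z with hZe | hZne
    · left; exact hZe
    · right
      have hZM : Z ∈ M := by
        rw [hM, Finset.mem_filter]; exact ⟨hZ, hZne, hZa.trans haM.2.2⟩
      exact Finset.eq_of_subset_of_card_le hZa (hamin Z hZM)
  -- a maximal member below B not containing a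
  set M' := E.filter (fun D => D ⊆ B ∧ ¬ a ⊆ D) with hM'
  have hM'ne : M'.Nonempty := by
    refine ⟨∅, ?_⟩
    rw [hM', Finset.mem_filter]
    refine ⟨hempE, Finset.empty_subset _, ?_⟩
    intro h'
    exact haM.2.1.ne_empty (Finset.subset_empty.1 h')
  obtain ⟨m, hmM, hmmax⟩ := Finset.exists_max_image M' Finset.card hM'ne
  rw [hM', Finset.mem_filter] at hmM
  obtain ⟨x, hxa, hxm⟩ := Finset.not_subset.1 hmM.2.2
  refine ⟨x, haM.2.2 hxa, ?_⟩
  have hkey : ∀ D ∈ E, D ⊆ B → x ∉ D → D ⊆ m := by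
    intro D hD hDB hxD
    by_contra hDm
    have h1 : D ∪ m ∈ M' := by
      rw [hM', Finset.mem_filter]
      refine ⟨hucE D hD m hmM.1, Finset.union_subset hDB hmM.2.1, ?_⟩
      intro h2
      have := h2 hxa
      rw [Finset.mem_union] at this
      tauto
    have h2 := hmmax _ h1
    have h3 : m = D ∪ m := Finset.eq_of_subset_of_card_le Finset.subset_union_right h2
    apply hDm
    rw [h3]; exact Finset.subset_union_left
  intro S hS hSB hxS
  have haS : ¬ a ⊆ S := fun h' => hxS (h' hxa)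
  have hcov := hcover a hatom S hS haS
  refine ⟨S ∪ a, hcov.2.1, Finset.subset_union_left, Finset.union_subset hSB haM.2.2,
    Finset.mem_union_right _ hxa, ?_⟩
  intro D hD hDC hxD
  have h1 := hcov.2.2.2 (S ∪ D) (hucE S hS D hD) Finset.subset_union_left
    (Finset.union_subset Finset.subset_union_left hDC)
  rcases h1 with h1 | h1
  · rw [← h1]; exact Finset.subset_union_right
  · exfalso
    have : x ∈ S ∪ D := by rw [h1]; exact Finset.mem_union_right _ hxa
    rw [Finset.mem_union] at this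
    tauto

theorem main (A : Finset (Finset α)) (hA : A.Nonempty)
    (huc : ∀ X ∈ A, ∀ Y ∈ A, X ∪ Y ∈ A)
    (hsep : ∀ x ∈ A.sup id, ∀ y ∈ A.sup id, x ≠ y →
      ∃ S ∈ A, (x ∈ S ∧ y ∉ S) ∨ (y ∈ S ∧ x ∉ S))
    (hne : A ≠ (A.sup id).powerset)
    (hcl : (∃ l, PeelsBy A l) ∨ Semimodular A ∨ RelComplemented A) :
    ∃ x ∈ A.sup id, A.card < 2 * (A.filter (fun S => x ∈ S)).card := by
  have hR : ∃ l, PeelsBy A l := by
    rcases hcl with h | h | h
    · exact h
    · exact exists_peels A.card A rfl huc (reflecting_of_semimodular huc h)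
    · exact exists_peels A.card A rfl huc (reflecting_of_relComplemented huc h)
  obtain ⟨l, hl⟩ := hR
  rcases key l A hA huc hl with h | h
  · exact h
  · exact absurd (powerset_of_compl hA huc hsep h) hne

end Pool.Agent.H44.Reflect
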